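import Pool.Agent.Lib.MP_c7af3c_ag.T2.H42.Restr
import Pool.Agent.Lib.MP_c7af3c_ag.T2.H42.Qclass

/-!
# MP_c7af3c_ag, project T2C, row P_QINTB (helper84): tuples of polynomials

* `finrank_pi_sub`: the dimension of a product of subspaces.
* `prodT`: the product lemma for tuples of polynomials in one variable.
* `TS e`: the tuples of forms of degrees `e m` in three variables; `rt ρ`: the restriction.
-/

set_option autoImplicit false

namespace Pool.Agent.T2C.H84

open Module MvPolynomial
open Pool.Agent.T2 (S3 mulS)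
open Pool.Agent.T2.H42

variable {K : Type} [Field K]

/-! ### products of subspaces -/

section pi

variable {ι : Type} [Fintype ι] {V : Type} [AddCommGroup V] [Module K V]

/-- a product of subspaces as a product of spaces -/
def piE (p : ι → Submodule K V) : (Submodule.pi Set.univ p : Submodule K (ι → V)) ≃ₗ[K]
    (∀ i, p i) where
  toFun x i := ⟨x.1 i, x.2 i trivial⟩
  invFun y := ⟨fun i => (y i : V), fun i _ => (y i).2⟩
  left_inv _ := rfl
  right_inv _ := rfl
  map_add' _ _ := rfl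
  map_smul' _ _ := rfl

theorem finite_pi_sub (p : ι → Submodule K V) (h : ∀ i, FiniteDimensional K (p i)) :
    FiniteDimensional K (Submodule.pi Set.univ p : Submodule K (ι → V)) :=
  Module.Finite.equiv (piE p).symm

theorem finrank_pi_sub (p : ι → Submodule K V) (h : ∀ i, FiniteDimensional K (p i)) :
    finrank K (Submodule.pi Set.univ p : Submodule K (ι → V)) = ∑ i, finrank K (p i) := by
  rw [(piE p).finrank_eq, Module.finrank_pi_fintype]

end pi

/-! ### the product lemma -/

section prod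

variable {c : ℕ}

theorem deg_bdd (A : Submodule K (Polynomial K)) [FiniteDimensional K A] :
    ∃ N, ∀ a ∈ A, a.natDegree < N := by
  obtain ⟨N, hN⟩ := (degs_finite A).bddAbove
  refine ⟨N + 1, fun a ha => ?_⟩
  by_cases h0 : a = 0
  · rw [h0, Polynomial.natDegree_zero]
    omega
  · have := hN ⟨a, ha, h0, rfl⟩
    omega

theorem deg_bddT (B : Submodule K (Fin c → Polynomial K)) [FiniteDimensional K B] :
    ∃ N, ∀ b ∈ B, ∀ m, (b m).natDegree < N := by
  have h : ∀ m, ∃ N, ∀ a ∈ B.map (LinearMap.proj m : (Fin c → Polynomial K) →ₗ[K] Polynomial K),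
      a.natDegree < N := fun m => deg_bdd _
  choose N hN using h
  refine ⟨∑ m, N m, fun b hb m => ?_⟩
  have h1 := hN m (b m) ⟨b, hb, rfl⟩
  have h2 : N m ≤ ∑ m, N m := Finset.single_le_sum (fun _ _ => Nat.zero_le _) (Finset.mem_univ m)
  omega

/-- the packing of a tuple into one polynomial -/
noncomputable def pack (N : ℕ) : (Fin c → Polynomial K) →ₗ[K] Polynomial K :=
  ∑ m : Fin c, LinearMap.mulLeft K (Polynomial.X ^ (N * (m : ℕ))) ∘ₗ LinearMap.proj m

theorem pack_apply (N : ℕ) (b : Fin c → Polynomial K) :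
    pack N b = ∑ m : Fin c, Polynomial.X ^ (N * (m : ℕ)) * b m := by
  unfold pack
  rw [LinearMap.sum_apply]
  rfl

theorem pack_smul (N : ℕ) (a : Polynomial K) (b : Fin c → Polynomial K) :
    pack N (a • b) = a * pack N b := by
  rw [pack_apply, pack_apply, Finset.mul_sum]
  refine Finset.sum_congr rfl fun m _ => ?_
  rw [Pi.smul_apply, smul_eq_mul]
  ring

theorem pack_inj {N : ℕ} {b : Fin c → Polynomial K} (h : ∀ m, (b m).natDegree < N)
    (h0 : pack N b = 0) : b = 0 := by
  funext m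
  ext j
  rw [Pi.zero_apply, Polynomial.coeff_zero]
  by_cases hj : N ≤ j
  · exact Polynomial.coeff_eq_zero_of_natDegree_lt (lt_of_lt_of_le (h m) hj)
  push Not at hj
  have h1 := congrArg (fun p : Polynomial K => p.coeff (N * (m : ℕ) + j)) h0
  simp only [pack_apply, Polynomial.finsetSum_coeff, Polynomial.coeff_zero,
    Polynomial.coeff_X_pow_mul'] at h1
  rw [Finset.sum_eq_single m] at h1
  · rwa [if_pos (Nat.le_add_right _ _), Nat.add_sub_cancel_left] at h1
  · intro i _ hi
    by_cases hle : N * (i : ℕ) ≤ N * (m : ℕ) + j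
    · rw [if_pos hle]
      refine Polynomial.coeff_eq_zero_of_natDegree_lt (lt_of_lt_of_le (h i) ?_)
      have hne : (i : ℕ) ≠ (m : ℕ) := fun h => hi (Fin.ext h)
      rcases lt_or_gt_of_ne hne with hlt | hgt
      · have h2 : N * ((i : ℕ) + 1) ≤ N * (m : ℕ) := Nat.mul_le_mul_left N hlt
        rw [Nat.mul_add, Nat.mul_one] at h2
        omega
      · exfalso
        have h2 : N * ((m : ℕ) + 1) ≤ N * (i : ℕ) := Nat.mul_le_mul_left N hgt
        rw [Nat.mul_add, Nat.mul_one] at h2
        omega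
    · rw [if_neg hle]
  · intro h
    exact absurd (Finset.mem_univ m) h

/-- the product lemma for tuples -/
theorem prodT (A : Submodule K (Polynomial K)) (B W : Submodule K (Fin c → Polynomial K))
    [FiniteDimensional K A] [FiniteDimensional K B] [FiniteDimensional K W] (hA : A ≠ ⊥)
    (hB : B ≠ ⊥) (h : ∀ a ∈ A, ∀ b ∈ B, a • b ∈ W) :
    finrank K A + finrank K B ≤ finrank K W + 1 := by
  obtain ⟨N, hN⟩ := deg_bddT B
  have e1 := fin_map_add B (pack N)
  have e2 : B ⊓ LinearMap.ker (pack N) = ⊥ := by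
    rw [Submodule.eq_bot_iff]
    intro b hb
    exact pack_inj (hN b (Submodule.mem_inf.1 hb).1)
      (LinearMap.mem_ker.1 (Submodule.mem_inf.1 hb).2)
  rw [e2, finrank_bot, add_zero] at e1
  have e3 := prod_le A (B.map (pack N)) (W.map (pack N)) hA (by
    obtain ⟨b, hb, h0⟩ := B.ne_bot_iff.1 hB
    rw [Submodule.ne_bot_iff]
    refine ⟨pack N b, ⟨b, hb, rfl⟩, fun h1 => h0 ?_⟩
    exact pack_inj (hN b hb) h1) (by
    rintro a ha _ ⟨b, hb, rfl⟩
    exact ⟨a • b, h a ha b hb, pack_smul N a b⟩)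
  have e4 := Submodule.finrank_map_le (pack N) W
  omega

end prod

/-! ### tuples of forms -/

section forms

variable {c : ℕ}

/-- tuples -/
abbrev Tup (K : Type) [Field K] (c : ℕ) : Type := Fin c → MvPolynomial (Fin 3) K

variable (K) in
/-- tuples of forms -/
noncomputable def TS (e : Fin c → ℕ) : Submodule K (Tup K c) :=
  Submodule.pi Set.univ fun m => S3 K (e m)

theorem mem_TS {e : Fin c → ℕ} {G : Tup K c} : G ∈ TS K e ↔ ∀ m, (G m).IsHomogeneous (e m) :=
  ⟨fun h m => h m trivial, fun h m _ => h m⟩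

instance fin_TS (e : Fin c → ℕ) : FiniteDimensional K (TS K e) :=
  finite_pi_sub _ fun _ => inferInstance

theorem dim_TS (e : Fin c → ℕ) : finrank K (TS K e) = ∑ m, (e m + 2).choose 2 := by
  unfold TS
  rw [finrank_pi_sub _ fun _ => inferInstance]
  exact Finset.sum_congr rfl fun m _ => dim_S3 (e m)

/-- multiplication by a polynomial -/
noncomputable def sm (a : MvPolynomial (Fin 3) K) : Tup K c →ₗ[K] Tup K c :=
  LinearMap.pi fun m => LinearMap.mulLeft K a ∘ₗ LinearMap.proj m

theorem sm_apply (a : MvPolynomial (Fin 3) K) (G : Tup K c) : sm a G = a • G := rfl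

theorem sm_inj {a : MvPolynomial (Fin 3) K} (ha : a ≠ 0) {G : Tup K c} (h : sm a G = 0) :
    G = 0 := by
  funext m
  have h1 : a * G m = 0 := congrFun h m
  exact (mul_eq_zero.1 h1).resolve_left ha

theorem finrank_map_sm {a : MvPolynomial (Fin 3) K} (ha : a ≠ 0) (T : Submodule K (Tup K c))
    [FiniteDimensional K T] : finrank K (T.map (sm a)) = finrank K T := by
  have e1 := fin_map_add T (sm (c := c) a)
  have e2 : T ⊓ LinearMap.ker (sm (c := c) a) = ⊥ := by
    rw [Submodule.eq_bot_iff]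
    intro b hb
    exact sm_inj ha (LinearMap.mem_ker.1 (Submodule.mem_inf.1 hb).2)
  rw [e2, finrank_bot, add_zero] at e1
  exact e1

/-- the restriction of tuples -/
noncomputable def rt (ρ : MvPolynomial (Fin 3) K →ₐ[K] Polynomial K) :
    Tup K c →ₗ[K] (Fin c → Polynomial K) :=
  LinearMap.pi fun m => lm ρ ∘ₗ LinearMap.proj m

theorem rt_apply (ρ : MvPolynomial (Fin 3) K →ₐ[K] Polynomial K) (G : Tup K c) (m : Fin c) :
    rt ρ G m = ρ (G m) := rfl

theorem rt_smul (ρ : MvPolynomial (Fin 3) K →ₐ[K] Polynomial K) (a : MvPolynomial (Fin 3) K)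
    (G : Tup K c) : rt ρ (a • G) = ρ a • rt ρ G := by
  funext m
  rw [rt_apply, Pi.smul_apply, Pi.smul_apply, smul_eq_mul, smul_eq_mul, map_mul, rt_apply]

theorem rt_eq_zero {ρ : MvPolynomial (Fin 3) K →ₐ[K] Polynomial K} {G : Tup K c} :
    rt ρ G = 0 ↔ ∀ m, ρ (G m) = 0 :=
  ⟨fun h m => congrFun h m, fun h => funext h⟩

/-- the kernel of the restriction -/
theorem TS_ker (ρ : MvPolynomial (Fin 3) K →ₐ[K] Polynomial K) (e : Fin c → ℕ) :
    TS K e ⊓ LinearMap.ker (rt ρ) =
      Submodule.pi Set.univ fun m => S3 K (e m) ⊓ LinearMap.ker (lm ρ) := by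
  ext G
  rw [Submodule.mem_inf, LinearMap.mem_ker, rt_eq_zero, mem_TS]
  constructor
  · intro h m _
    exact Submodule.mem_inf.2 ⟨h.1 m, LinearMap.mem_ker.2 (h.2 m)⟩
  · intro h
    exact ⟨fun m => (Submodule.mem_inf.1 (h m trivial)).1,
      fun m => LinearMap.mem_ker.1 (Submodule.mem_inf.1 (h m trivial)).2⟩

theorem finrank_TS_ker_le (ρ : MvPolynomial (Fin 3) K →ₐ[K] Polynomial K) (e n : Fin c → ℕ)
    (h : ∀ m, finrank K (S3 K (e m) ⊓ LinearMap.ker (lm ρ) :
      Submodule K (MvPolynomial (Fin 3) K)) ≤ n m) :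
    finrank K (TS K e ⊓ LinearMap.ker (rt ρ) : Submodule K (Tup K c)) ≤ ∑ m, n m := by
  rw [TS_ker, finrank_pi_sub _ fun _ => Submodule.finiteDimensional_inf_left _ _]
  exact Finset.sum_le_sum fun m _ => h m

end forms

/-! ### sharper dimension counts for the restrictions -/

theorem RL.map_le' {ρ : MvPolynomial (Fin 3) K →ₐ[K] Polynomial K} {l : MvPolynomial (Fin 3) K}
    (h : RL ρ l) (d : ℕ) : finrank K ((S3 K d).map (lm ρ)) ≤ d + 1 := by
  rcases d with _ | d
  · refine le_trans (Submodule.finrank_map_le _ _) ?_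
    rw [dim_S3]
    decide
  · exact h.map_le d

theorem RC.ker_le' {ρ : MvPolynomial (Fin 3) K →ₐ[K] Polynomial K} {q : MvPolynomial (Fin 3) K}
    (h : RC ρ q) (d : ℕ) : finrank K (S3 K d ⊓ LinearMap.ker (lm ρ) :
      Submodule K (MvPolynomial (Fin 3) K)) ≤ d.choose 2 := by
  have h1 := fin_map_add (S3 K d) (lm ρ)
  have h2 := h.le_map d
  rw [dim_S3] at h1
  have h3 : (d + 2).choose 2 = (d + 1).choose 1 + (d + 1).choose 2 := rfl
  have h4 : (d + 1).choose 2 = d.choose 1 + d.choose 2 := rfl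
  rw [Nat.choose_one_right] at h3 h4
  omega

end Pool.Agent.T2C.H84
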