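import Pool.Agent.Lib.MP_c7af3c_ag.T2C.H44.Trans
import Pool.Agent.Lib.MP_c7af3c_ag.T2.H80.Norm3
import Pool.Agent.Lib.MP_c7af3c_ag.T2C.H11.Hall
import Pool.Agent.Lib.MP_c7af3c_ag.T2C.H84.Tup

/-!
# MP_c7af3c_ag, project T2C, row N34 (helper84): type (3, 4)

The cubic `f0` is no multiple of the conic. The projection of `M` to the matrices `L` has
dimension at least 6 (lemmas `dvd0`, `dvd1`), so the conic is a double line and all matrices `L`
which fix the flag occur (`six`). The matrices `X2 ∂0`, `X2 ∂1`, `X1 ∂0`, `X0 ∂0` give the normal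
form `(X1 ^ 2 X2, X1 ^ 4)`.
-/

set_option autoImplicit false

namespace Pool.Agent.T2C.H84

open MvPolynomial Pool.Agent.Gen Pool.Agent.Sharp Pool.Agent.Edge
open Pool.Agent.T2 (S3 mulS mem_mulS QclStatement)
open Pool.Agent.T2C.H8 (T3 mulC)
open Pool.Agent.Sharp.H75 (af lf)
open Pool.Agent.Edge.H65 (ssub)
open Pool.Agent.T2.H80 (rho rho_X rho_C pt derivative_rho coeff_rho coeff_rho_gt exists_quot
  mem_of_rho_one rho_lf)
open Pool.Agent.T2.H42 (fin_map_add dim_S3)

section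

variable {K : Type} [Field K]

/-! ### divisibility -/

theorem dvd_of_two {q l l' f : MvPolynomial (Fin 3) K} (h : IsRelPrime l l') (h1 : q ∣ l * f)
    (h2 : q ∣ l' * f) : q ∣ f := by
  classical
  let _ : GCDMonoid (MvPolynomial (Fin 3) K) := UniqueFactorizationMonoid.toGCDMonoid _
  have h3 : q ∣ gcd (l * f) (l' * f) := dvd_gcd h1 h2
  have h4 : Associated (gcd (l * f) (l' * f)) (gcd l l' * f) := gcd_mul_right' _ _ _
  have h5 : IsUnit (gcd l l') := gcd_isUnit_iff_isRelPrime.2 h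
  have h6 : Associated (gcd l l' * f) f := by
    obtain ⟨u, hu⟩ := h5
    rw [← hu, mul_comm]
    exact associated_mul_unit_left f _ u.isUnit
  exact h3.trans (h4.trans h6).dvd

theorem prop_of_dvd {l l' : MvPolynomial (Fin 3) K} (hl : l.IsHomogeneous 1)
    (hl' : l'.IsHomogeneous 1) (h : l ∣ l') : ∃ c, l' = C c * l := by
  obtain ⟨b, hb, rfl⟩ := mem_mulS.1 (H11.mem_mulS_of_dvd hl hl' h)
  refine ⟨coeff 0 b, ?_⟩
  have h1 : b.totalDegree = 0 := by
    by_cases hz : b = 0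
    · rw [hz, totalDegree_zero]
    · exact hb.totalDegree hz
  rw [← totalDegree_eq_zero_iff_eq_C.1 h1, mul_comm]

theorem dvd1 {q l l' f0 : MvPolynomial (Fin 3) K} (hq : q.IsHomogeneous 2)
    (hf0 : f0.IsHomogeneous 3) (hn : f0 ∉ mulS q 1) (hl : l.IsHomogeneous 1)
    (hl0 : l ≠ 0) (hl' : l'.IsHomogeneous 1) (h : q ∣ l * f0) (h' : q ∣ l' * f0) :
    ∃ c, l' = C c * l := by
  by_cases hd : l ∣ l'
  · exact prop_of_dvd hl hl' hd
  · exact absurd (H11.mem_mulS_of_dvd hq hf0 (dvd_of_two (H11.relPrime_lin hl hl0 hd) h h')) hn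

theorem dvd0 {q l l' f0 f1 : MvPolynomial (Fin 3) K} (hq : q.IsHomogeneous 2) (hq0 : q ≠ 0)
    (hf0 : f0.IsHomogeneous 3) (hn : f0 ∉ mulS q 1)
    (noln : ∀ z : MvPolynomial (Fin 3) K, z.IsHomogeneous 1 → z ≠ 0 → z ∣ f0 → ¬ z ∣ f1)
    (hl : l.IsHomogeneous 1) (hl0 : l ≠ 0) (h : q ∣ l * f0) {b : K}
    (h' : q ∣ l' * f0 + C b * f1) : b = 0 := by
  by_cases hd : l ∣ q
  · obtain ⟨z, hz, rfl⟩ := mem_mulS.1 (H11.mem_mulS_of_dvd hl hq hd)
    have hz0 : z ≠ 0 := by
      rintro rfl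
      exact hq0 (mul_zero _)
    have h1 : z ∣ f0 := (mul_dvd_mul_iff_left hl0).1 h
    have h2 : z ∣ l' * f0 + C b * f1 := (Dvd.intro_left l rfl).trans h'
    have h3 : z ∣ C b * f1 := (dvd_add_right (h1.mul_left l')).1 h2
    by_contra hb
    apply noln z hz hz0 h1
    have h4 : f1 = C b⁻¹ * (C b * f1) := by
      rw [← mul_assoc, ← C_mul, inv_mul_cancel₀ hb, C_1, one_mul]
    rw [h4]
    exact h3.mul_left _
  · exact absurd (H11.mem_mulS_of_dvd hq hf0
      ((H11.relPrime_lin hl hl0 hd).symm.dvd_of_dvd_mul_left h)) hn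

/-! ### counting coordinates -/

theorem le_card {P : Submodule K (Fin 3 → Fin 3 → K)} {n : ℕ} (c : Fin n → Fin 3 × Fin 3)
    (h : ∀ L ∈ P, (∀ k, L (c k).1 (c k).2 = 0) → L = 0) : Module.finrank K P ≤ n := by
  let j : P →ₗ[K] (Fin n → K) :=
    { toFun := fun L k => L.1 (c k).1 (c k).2
      map_add' := fun _ _ => rfl
      map_smul' := fun _ _ => rfl }
  have h1 : Function.Injective j := by
    rw [← LinearMap.ker_eq_bot, Submodule.eq_bot_iff]
    intro L hL
    exact Subtype.ext (h L.1 L.2 fun k => congrFun (LinearMap.mem_ker.1 hL) k)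
  have h2 := LinearMap.finrank_le_finrank_of_injective h1
  rwa [Module.finrank_fin_fun] at h2

theorem all_of {P : Submodule K (Fin 3 → Fin 3 → K)} {n : ℕ} (c : Fin n → Fin 3 × Fin 3)
    (h : ∀ L ∈ P, (∀ k, L (c k).1 (c k).2 = 0) → L = 0) (hn : n ≤ Module.finrank K P)
    (v : Fin n → K) : ∃ L ∈ P, ∀ k, L (c k).1 (c k).2 = v k := by
  let j : P →ₗ[K] (Fin n → K) :=
    { toFun := fun L k => L.1 (c k).1 (c k).2
      map_add' := fun _ _ => rfl
      map_smul' := fun _ _ => rfl }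
  have h1 : Function.Injective j := by
    rw [← LinearMap.ker_eq_bot, Submodule.eq_bot_iff]
    intro L hL
    exact Subtype.ext (h L.1 L.2 fun k => congrFun (LinearMap.mem_ker.1 hL) k)
  have h3 : Module.finrank K P = Module.finrank K (Fin n → K) := by
    have h2 := LinearMap.finrank_le_finrank_of_injective h1
    rw [Module.finrank_fin_fun] at h2 ⊢
    omega
  obtain ⟨L, hL⟩ := ((LinearMap.injective_iff_surjective_of_finrank_eq_finrank h3).1 h1) v
  exact ⟨L.1, L.2, fun k => congrFun hL k⟩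

/-! ### the space of matrices `B` -/

theorem sum_two {R : Type} [AddCommMonoid R] {m0 m1 : Fin 2} (h : m0 ≠ m1) (F : Fin 2 → R) :
    ∑ m, F m = F m0 + F m1 := by
  rw [Fin.sum_univ_two]
  fin_cases m0 <;> fin_cases m1
  · exact absurd rfl h
  · rfl
  · exact add_comm _ _
  · exact absurd rfl h

theorem or_two {m0 m1 : Fin 2} (h : m0 ≠ m1) (m : Fin 2) : m = m0 ∨ m = m1 := by
  fin_cases m0 <;> fin_cases m1 <;> fin_cases m <;> simp_all

/-- the matrices -/
noncomputable def mk (m0 : Fin 2) (a b : K) (l : MvPolynomial (Fin 3) K) :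
    Fin 2 → Fin 2 → MvPolynomial (Fin 3) K :=
  fun m m' => if m = m0 then (if m' = m0 then C a else 0) else (if m' = m0 then l else C b)

theorem mk_BF {d : Fin 2 → ℕ} {m0 m1 : Fin 2} (h0 : d m0 = 3) (h1 : d m1 = 4) (a b : K)
    {l : MvPolynomial (Fin 3) K} (hl : l.IsHomogeneous 1) :
    mk m0 a b l ∈ BF K (Fin 3) d := by
  have hm : m0 ≠ m1 := by
    rintro rfl
    omega
  have hm' : m1 ≠ m0 := hm.symm
  intro m m'
  rcases or_two hm m with rfl | rfl <;> rcases or_two hm m' with rfl | rfl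
  · refine ⟨fun _ => ?_, fun h => absurd h (lt_irrefl _)⟩
    rw [Nat.sub_self]
    simp only [mk, if_true]
    exact isHomogeneous_C _ _
  · refine ⟨fun h => ?_, fun _ => ?_⟩
    · omega
    · simp [mk, hm']
  · refine ⟨fun _ => ?_, fun h => ?_⟩
    · rw [h0, h1]
      simpa [mk, hm'] using hl
    · omega
  · refine ⟨fun _ => ?_, fun h => absurd h (lt_irrefl _)⟩
    rw [Nat.sub_self]
    simp only [mk, if_neg hm']
    exact isHomogeneous_C _ _

theorem five {d : Fin 2 → ℕ} {m0 m1 : Fin 2} (h0 : d m0 = 3) (h1 : d m1 = 4) :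
    5 ≤ Module.finrank K (BF K (Fin 3) d) := by
  have hm : m0 ≠ m1 := by
    rintro rfl
    omega
  have hm' : m1 ≠ m0 := hm.symm
  have hF : FiniteDimensional K (BF K (Fin 3) d) := by
    have hle : BF K (Fin 3) d ≤ Submodule.pi Set.univ fun m =>
        (Submodule.pi Set.univ fun m' => S3 K (d m - d m') :
          Submodule K (Fin 2 → MvPolynomial (Fin 3) K)) := by
      intro B hB m _ m' _
      rcases Nat.lt_or_ge (d m) (d m') with h | h
      · rw [(hB m m').2 h]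
        exact Submodule.zero_mem _
      · exact (hB m m').1 h
    have := finite_pi_sub (K := K) (fun m =>
        (Submodule.pi Set.univ fun m' => S3 K (d m - d m') :
          Submodule K (Fin 2 → MvPolynomial (Fin 3) K)))
        fun m => finite_pi_sub _ fun m' => inferInstance
    exact Submodule.finiteDimensional_of_le hle
  let j : (K × K) × S3 K 1 →ₗ[K] BF K (Fin 3) d :=
    { toFun := fun u => ⟨mk m0 u.1.1 u.1.2 u.2.1, mk_BF h0 h1 _ _ u.2.2⟩
      map_add' := fun u v => by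
        apply Subtype.ext
        funext m m'
        simp only [mk, Submodule.coe_add, Pi.add_apply, Prod.fst_add, Prod.snd_add, C_add]
        split_ifs <;> simp
      map_smul' := fun r u => by
        apply Subtype.ext
        funext m m'
        simp only [mk, Submodule.coe_smul, Pi.smul_apply, Prod.smul_fst, Prod.smul_snd,
          RingHom.id_apply, smul_eq_C_mul, smul_eq_mul, C_mul]
        split_ifs <;> simp }
  have hj : Function.Injective j := by
    rw [← LinearMap.ker_eq_bot, Submodule.eq_bot_iff]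
    intro u hu
    have h2 : mk m0 u.1.1 u.1.2 u.2.1 = 0 := congrArg Subtype.val (LinearMap.mem_ker.1 hu)
    have e1 := congrFun (congrFun h2 m0) m0
    have e2 := congrFun (congrFun h2 m1) m0
    have e3 := congrFun (congrFun h2 m1) m1
    simp only [mk, if_true, if_neg hm', Pi.zero_apply] at e1 e2 e3
    refine Prod.ext (Prod.ext ?_ ?_) (Subtype.ext e2)
    · exact (C_eq_zero).1 e1
    · exact (C_eq_zero).1 e3
  have h3 := LinearMap.finrank_le_finrank_of_injective hj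
  rw [Module.finrank_prod, Module.finrank_prod, Module.finrank_self, dim_S3] at h3
  have h4 : (1 + 2).choose 2 = 3 := rfl
  omega

/-! ### the projection of `M` has dimension at least six -/

theorem proj_six {d : Fin 2 → ℕ} {q : MvPolynomial (Fin 3) K} {f : T3 K 2} {y : Fin 3 → K}
    (hN : Nrm d q f y)
    {M : Submodule K ((Fin 3 → Fin 3 → K) × (Fin 2 → Fin 2 → MvPolynomial (Fin 3) K))}
    (hM : Stb d q f y M) {m0 m1 : Fin 2} (h0 : d m0 = 3) (h1 : d m1 = 4)
    (hn : f m0 ∉ mulS q 1) :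
    6 ≤ Module.finrank K (M.map (LinearMap.fst K _ _) : Submodule K (Fin 3 → Fin 3 → K)) := by
  have hm : m0 ≠ m1 := by
    rintro rfl
    omega
  have hm' : m1 ≠ m0 := hm.symm
  have hf0 : (f m0).IsHomogeneous 3 := by
    have := hN.hf m0
    rwa [h0] at this
  have hf1 : (f m1).IsHomogeneous 4 := by
    have := hN.hf m1
    rwa [h1] at this
  have noln : ∀ z : MvPolynomial (Fin 3) K, z.IsHomogeneous 1 → z ≠ 0 → z ∣ f m0 →
      ¬ z ∣ f m1 := by
    intro z hz hz0 hd0 hd1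
    apply hN.noln z hz hz0
    rw [H44.mem_mulC_iff]
    intro m
    rcases or_two hm m with rfl | rfl
    · exact H11.mem_mulS_of_dvd hz (hN.hf _) hd0
    · exact H11.mem_mulS_of_dvd hz (hN.hf _) hd1
  have hdim := hM.dim
  have hfive := five (K := K) h0 h1
  have hMf : FiniteDimensional K M := Module.finite_of_finrank_pos (by omega)
  have e1 := fin_map_add M (LinearMap.fst K (Fin 3 → Fin 3 → K)
    (Fin 2 → Fin 2 → MvPolynomial (Fin 3) K))
  -- the elements of the kernel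
  have key : ∀ u ∈ M, u.1 = 0 → u.2 m0 m0 = 0 ∧ u.2 m0 m1 = 0 ∧
      (u.2 m1 m0).IsHomogeneous 1 ∧ u.2 m1 m1 = C (coeff 0 (u.2 m1 m1)) ∧
      q ∣ u.2 m1 m0 * f m0 + C (coeff 0 (u.2 m1 m1)) * f m1 := by
    intro u hu hu1
    have hb := hM.bf u hu
    have hb00 := (hb m0 m0).1 le_rfl
    have hb01 := (hb m0 m1).2 (by omega)
    have hb10 := (hb m1 m0).1 (by omega)
    have hb11 := (hb m1 m1).1 le_rfl
    rw [Nat.sub_self] at hb00 hb11
    rw [h0, h1] at hb10
    have hc : ∀ b : MvPolynomial (Fin 3) K, b.IsHomogeneous 0 → b = C (coeff 0 b) := by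
      intro b hb
      have h1 : b.totalDegree = 0 := by
        by_cases hz : b = 0
        · rw [hz, totalDegree_zero]
        · exact hb.totalDegree hz
      exact totalDegree_eq_zero_iff_eq_C.1 h1
    have hff := H44.mem_mulC_iff.1 (hM.ff u hu)
    have haf : ∀ F : MvPolynomial (Fin 3) K, af u.1 F = 0 := by
      intro F
      rw [hu1]
      unfold af H75.lf
      simp
    have e0 := hff m0
    have e1 := hff m1
    simp only [Pi.add_apply, haf, zero_add, bmul, sum_two hm] at e0 e1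
    rw [hb01, zero_mul, add_zero, h0] at e0
    rw [h1] at e1
    refine ⟨?_, hb01, hb10, hc _ hb11, ?_⟩
    · by_contra hne
      apply hn
      have hc0 := hc _ hb00
      rw [hc0, C_eq_zero] at hne
      rw [hc0] at e0
      have := (mulS q 1).smul_mem (coeff 0 (u.2 m0 m0))⁻¹ e0
      rwa [smul_eq_C_mul, ← mul_assoc, ← C_mul, inv_mul_cancel₀ hne, C_1, one_mul] at this
    · rw [← hc _ hb11]
      exact H11.dvd_of_mem_mulS e1
  have hker : Module.finrank K (M ⊓ LinearMap.ker (LinearMap.fst K (Fin 3 → Fin 3 → K)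
      (Fin 2 → Fin 2 → MvPolynomial (Fin 3) K)) : Submodule K _) ≤ 1 := by
    have hel : ∀ u v : (Fin 3 → Fin 3 → K) × (Fin 2 → Fin 2 → MvPolynomial (Fin 3) K),
        u ∈ M → v ∈ M → u.1 = 0 → v.1 = 0 → u ≠ 0 → ∃ c : K, c • u = v := by
      intro u v hu hv hu1 hv1 hu0
      obtain ⟨u00, u01, u10, u11, uq⟩ := key u hu hu1
      obtain ⟨v00, v01, v10, v11, vq⟩ := key v hv hv1
      have hex : ∃ c, v.2 m1 m0 = C c * u.2 m1 m0 ∧
          coeff 0 (v.2 m1 m1) = c * coeff 0 (u.2 m1 m1) := by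
        by_cases hb : coeff 0 (u.2 m1 m1) = 0
        · rw [hb, C_0, zero_mul, add_zero] at uq
          have hl0 : u.2 m1 m0 ≠ 0 := by
            intro hl0
            apply hu0
            refine Prod.ext hu1 ?_
            funext m m'
            rcases or_two hm m with rfl | rfl <;> rcases or_two hm m' with rfl | rfl
            · exact u00
            · exact u01
            · exact hl0
            · rw [u11, hb, C_0]; rfl
          have hb' := dvd0 hN.hq hN.q0 hf0 hn noln u10 hl0 uq vq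
          rw [hb', C_0, zero_mul, add_zero] at vq
          obtain ⟨c, hc⟩ := dvd1 hN.hq hf0 hn u10 hl0 v10 uq vq
          exact ⟨c, hc, by rw [hb, hb', mul_zero]⟩
        · refine ⟨coeff 0 (v.2 m1 m1) / coeff 0 (u.2 m1 m1), ?_, (div_mul_cancel₀ _ hb).symm⟩
          by_contra hne
          apply hb
          refine dvd0 (l := v.2 m1 m0 -
            C (coeff 0 (v.2 m1 m1) / coeff 0 (u.2 m1 m1)) * u.2 m1 m0) hN.hq hN.q0 hf0 hn noln
            ?_ (sub_ne_zero.2 hne) ?_ uq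
          · have h2 := (isHomogeneous_C (Fin 3)
              (coeff 0 (v.2 m1 m1) / coeff 0 (u.2 m1 m1))).mul u10
            rw [zero_add] at h2
            exact v10.sub h2
          · have h2 := dvd_sub vq (uq.mul_left (C (coeff 0 (v.2 m1 m1) / coeff 0 (u.2 m1 m1))))
            have h3 : (C (coeff 0 (v.2 m1 m1)) : MvPolynomial (Fin 3) K) =
                C (coeff 0 (v.2 m1 m1) / coeff 0 (u.2 m1 m1)) * C (coeff 0 (u.2 m1 m1)) := by
              rw [← C_mul, div_mul_cancel₀ _ hb]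
            convert h2 using 1
            linear_combination (-f m1) * h3
      obtain ⟨c, hc1, hc2⟩ := hex
      refine ⟨c, Prod.ext ?_ ?_⟩
      · rw [Prod.smul_fst, hu1, hv1, smul_zero]
      · funext m m'
        rw [Prod.smul_snd, Pi.smul_apply, Pi.smul_apply, smul_eq_C_mul]
        rcases or_two hm m with rfl | rfl <;> rcases or_two hm m' with rfl | rfl
        · rw [u00, v00, mul_zero]
        · rw [u01, v01, mul_zero]
        · exact hc1.symm
        · rw [u11, v11, hc2, C_mul]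
    by_cases hb : ∃ u ∈ M, u.1 = 0 ∧ u ≠ 0
    · obtain ⟨u, hu, hu1, hu0⟩ := hb
      refine finrank_le_one (⟨u, hu, hu1⟩ : (M ⊓ LinearMap.ker (LinearMap.fst K
        (Fin 3 → Fin 3 → K) (Fin 2 → Fin 2 → MvPolynomial (Fin 3) K)) : Submodule K _)) ?_
      rintro ⟨v, hv, hv1⟩
      obtain ⟨c, hc⟩ := hel u v hu hv hu1 hv1 hu0
      exact ⟨c, Subtype.ext hc⟩
    · push Not at hb
      have : (M ⊓ LinearMap.ker (LinearMap.fst K (Fin 3 → Fin 3 → K)
          (Fin 2 → Fin 2 → MvPolynomial (Fin 3) K)) : Submodule K _) = ⊥ := by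
        rw [Submodule.eq_bot_iff]
        rintro v ⟨hv, hv1⟩
        exact hb v hv hv1
      rw [this, finrank_bot]
      exact Nat.zero_le _
  omega

/-! ### the entries of the matrices -/

theorem ent_y {L : Fin 3 → Fin 3 → K} (h : ∃ e, ∀ j, ∑ i, L j i * (![1, 0, 0] : Fin 3 → K) i =
    e * (![1, 0, 0] : Fin 3 → K) j) : L 1 0 = 0 ∧ L 2 0 = 0 := by
  obtain ⟨e, h⟩ := h
  have h1 := h 1
  have h2 := h 2
  simp [Fin.sum_univ_three] at h1 h2
  exact ⟨h1, h2⟩

theorem ev_af (L : Fin 3 → Fin 3 → K) (F : MvPolynomial (Fin 3) K) (z : Fin 3 → K) :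
    eval z (af L F) = (∑ q, L 0 q * z q) * eval z (pderiv 0 F) +
      (∑ q, L 1 q * z q) * eval z (pderiv 1 F) + (∑ q, L 2 q * z q) * eval z (pderiv 2 F) := by
  unfold af H75.lf
  rw [Fin.sum_univ_three]
  simp only [map_add, map_mul, map_sum, eval_C, eval_X]

/-- the double line -/
theorem ent4 [CharZero K] {L : Fin 3 → Fin 3 → K} (h : ∃ e, af L (X 2 ^ 2) = C e * X 2 ^ 2) :
    L 2 1 = 0 := by
  obtain ⟨e, h⟩ := h
  have p0 : pderiv 0 (X 2 ^ 2 : MvPolynomial (Fin 3) K) = 0 := by simp [pderiv_X]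
  have p1 : pderiv 1 (X 2 ^ 2 : MvPolynomial (Fin 3) K) = 0 := by simp [pderiv_X]
  have p2 : pderiv 2 (X 2 ^ 2 : MvPolynomial (Fin 3) K) = 2 * X 2 := by simp [pderiv_X]
  have key : ∀ z : Fin 3 → K, (∑ q, L 2 q * z q) * (2 * z 2) = e * z 2 ^ 2 := by
    intro z
    have h1 := congrArg (eval z) h
    rw [ev_af, p0, p1, p2] at h1
    simpa using h1
  have e1 := key ![0, 0, 1]
  have e2 := key ![0, 1, 1]
  simp [Fin.sum_univ_three] at e1 e2
  have h2 : (2 : K) ≠ 0 := two_ne_zero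
  have h3 : L 2 1 * 2 = 0 := by linear_combination e2 - e1
  exact (mul_eq_zero.1 h3).resolve_right h2

/-- two lines, one of them through the point -/
theorem ent2 {L : Fin 3 → Fin 3 → K} (h : ∃ e, af L (X 0 * X 2) = C e * (X 0 * X 2)) :
    L 0 1 = 0 ∧ L 0 2 = 0 ∧ L 2 0 = 0 ∧ L 2 1 = 0 := by
  obtain ⟨e, h⟩ := h
  have p0 : pderiv 0 (X 0 * X 2 : MvPolynomial (Fin 3) K) = X 2 := by simp [pderiv_X]
  have p1 : pderiv 1 (X 0 * X 2 : MvPolynomial (Fin 3) K) = 0 := by simp [pderiv_X]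
  have p2 : pderiv 2 (X 0 * X 2 : MvPolynomial (Fin 3) K) = X 0 := by simp [pderiv_X]
  have key : ∀ z : Fin 3 → K, (∑ q, L 0 q * z q) * z 2 + (∑ q, L 2 q * z q) * z 0 =
      e * (z 0 * z 2) := by
    intro z
    have h1 := congrArg (eval z) h
    rw [ev_af, p0, p1, p2] at h1
    simpa using h1
  have e1 := key ![0, 0, 1]
  have e2 := key ![0, 1, 1]
  have e3 := key ![1, 0, 0]
  have e4 := key ![1, 1, 0]
  simp [Fin.sum_univ_three] at e1 e2 e3 e4
  rw [e1, add_zero] at e2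
  rw [e3, zero_add] at e4
  exact ⟨e2, e1, e3, e4⟩

/-- the smooth conic -/
theorem ent1 [CharZero K] {L : Fin 3 → Fin 3 → K} (h10 : L 1 0 = 0) (h20 : L 2 0 = 0)
    (h : ∃ e, af L (X 0 * X 2 - X 1 ^ 2) = C e * (X 0 * X 2 - X 1 ^ 2)) :
    L 0 2 = 0 ∧ L 2 1 = 0 := by
  obtain ⟨e, h⟩ := h
  have p0 : pderiv 0 (X 0 * X 2 - X 1 ^ 2 : MvPolynomial (Fin 3) K) = X 2 := by
    simp [pderiv_X]
  have p1 : pderiv 1 (X 0 * X 2 - X 1 ^ 2 : MvPolynomial (Fin 3) K) = - (2 * X 1) := by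
    simp [pderiv_X]
  have p2 : pderiv 2 (X 0 * X 2 - X 1 ^ 2 : MvPolynomial (Fin 3) K) = X 0 := by
    simp [pderiv_X]
  have key : ∀ z : Fin 3 → K, (∑ q, L 0 q * z q) * z 2 - (∑ q, L 1 q * z q) * (2 * z 1) +
      (∑ q, L 2 q * z q) * z 0 = e * (z 0 * z 2 - z 1 ^ 2) := by
    intro z
    have h1 := congrArg (eval z) h
    rw [ev_af, p0, p1, p2] at h1
    simp only [map_neg, map_mul, map_sub, map_pow, eval_X, eval_C, eval_ofNat] at h1
    linear_combination h1
  have e1 := key ![0, 0, 1]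
  have e2 := key ![1, 1, 1]
  have e3 := key ![1, -1, 1]
  have e4 := key ![1, 2, 4]
  have e5 := key ![1, -2, 4]
  simp [Fin.sum_univ_three, h10, h20] at e1 e2 e3 e4 e5
  refine ⟨e1, ?_⟩
  have h3 : (12 : K) * L 2 1 = 0 := by
    rw [e1] at e2 e3 e4 e5
    linear_combination 8 * e2 - 8 * e3 - e4 + e5
  exact (mul_eq_zero.1 h3).resolve_left (by norm_num)

/-! ### the double line -/

theorem pd_comm (i j : Fin 3) (F : MvPolynomial (Fin 3) K) :
    pderiv i (pderiv j F) = pderiv j (pderiv i F) := by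
  induction F using MvPolynomial.induction_on with
  | C a => simp
  | add p q hp hq => rw [map_add, map_add, map_add, map_add, hp, hq]
  | mul_X p k hp =>
    simp only [pderiv_mul, map_add, hp]
    have h1 : ∀ i j : Fin 3, pderiv i (pderiv j (X k : MvPolynomial (Fin 3) K)) = 0 := by
      intro i j
      by_cases hj : k = j
      · subst hj
        rw [pderiv_X_self, pderiv_one]
      · rw [pderiv_X_of_ne hj, map_zero]
    rw [h1, h1]
    ring

theorem r0 : rho (K := K) 1 (X 0) = Polynomial.X := by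
  rw [rho_X]; simp [pt]

theorem r1 : rho (K := K) 1 (X 1) = 1 := by
  rw [rho_X]; simp [pt]

theorem r2 : rho (K := K) 1 (X 2) = 0 := by
  rw [rho_X]; simp [pt]

theorem mem_sq {G : MvPolynomial (Fin 3) K} {r : ℕ} (hG : G.IsHomogeneous (r + 2))
    (h1 : rho 1 G = 0) (h2 : rho 1 (pderiv 2 G) = 0) : G ∈ mulS (X 2 ^ 2) r := by
  obtain ⟨b, hb, rfl⟩ := mem_mulS.1 (mem_of_rho_one hG h1)
  rw [pderiv_mul, pderiv_X_self, map_add, map_mul, map_mul, r2, zero_mul, add_zero, map_one,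
    one_mul] at h2
  obtain ⟨b', hb', rfl⟩ := mem_mulS.1 (mem_of_rho_one hb h2)
  exact mem_mulS.2 ⟨b', hb', by ring⟩

theorem of_mem_sq {G : MvPolynomial (Fin 3) K} {r : ℕ} (h : G ∈ mulS (X 2 ^ 2) r) :
    rho 1 G = 0 ∧ rho 1 (pderiv 2 G) = 0 := by
  obtain ⟨b, -, rfl⟩ := mem_mulS.1 h
  have h1 : pderiv 2 (X 2 ^ 2 * b) = X 2 * (2 * b + X 2 * pderiv 2 b) := by
    rw [pderiv_mul, pderiv_pow, pderiv_X_self]
    simp
    ring
  rw [h1, map_mul, map_mul, map_pow, r2]
  simp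

theorem af_exp (L : Fin 3 → Fin 3 → K) (F : MvPolynomial (Fin 3) K) :
    af L F = (C (L 0 0) * X 0 + C (L 0 1) * X 1 + C (L 0 2) * X 2) * pderiv 0 F +
      (C (L 1 0) * X 0 + C (L 1 1) * X 1 + C (L 1 2) * X 2) * pderiv 1 F +
      (C (L 2 0) * X 0 + C (L 2 1) * X 1 + C (L 2 2) * X 2) * pderiv 2 F := by
  unfold af H75.lf
  rw [Fin.sum_univ_three, Fin.sum_univ_three, Fin.sum_univ_three, Fin.sum_univ_three]

/-- the coordinates of a matrix which fixes the flag -/
def cc : Fin 6 → Fin 3 × Fin 3 := ![(0, 0), (0, 1), (0, 2), (1, 1), (1, 2), (2, 2)]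

/-- the relations for every matrix which fixes the flag -/
theorem rels [CharZero K] {d : Fin 2 → ℕ} {f : T3 K 2} (hN : Nrm d (X 2 ^ 2) f ![1, 0, 0])
    {M : Submodule K ((Fin 3 → Fin 3 → K) × (Fin 2 → Fin 2 → MvPolynomial (Fin 3) K))}
    (hM : Stb d (X 2 ^ 2) f ![1, 0, 0] M) {m0 m1 : Fin 2} (h0 : d m0 = 3) (h1 : d m1 = 4)
    (hn : f m0 ∉ mulS (X 2 ^ 2) 1) (v : Fin 6 → K) :
    ∃ (L : Fin 3 → Fin 3 → K) (b0 b : K) (l : MvPolynomial (Fin 3) K),
      (∀ F, af L F = (C (v 0) * X 0 + C (v 1) * X 1 + C (v 2) * X 2) * pderiv 0 F +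
        (C (v 3) * X 1 + C (v 4) * X 2) * pderiv 1 F + C (v 5) * X 2 * pderiv 2 F) ∧
      l.IsHomogeneous 1 ∧ af L (f m0) + C b0 * f m0 ∈ mulS (X 2 ^ 2) 1 ∧
      af L (f m1) + l * f m0 + C b * f m1 ∈ mulS (X 2 ^ 2) 2 := by
  have hm : m0 ≠ m1 := by
    rintro rfl
    omega
  have h6 := proj_six hN hM h0 h1 hn
  have hz : ∀ L ∈ (M.map (LinearMap.fst K _ _) : Submodule K (Fin 3 → Fin 3 → K)),
      L 1 0 = 0 ∧ L 2 0 = 0 ∧ L 2 1 = 0 := by
    rintro _ ⟨a, ha, rfl⟩
    obtain ⟨e1, e2⟩ := ent_y (hM.fy a ha)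
    exact ⟨e1, e2, ent4 (hM.fq a ha)⟩
  obtain ⟨L, hL, hv⟩ := all_of cc (fun L hL hk => by
    obtain ⟨e1, e2, e3⟩ := hz L hL
    funext p q
    have k0 := hk 0
    have k1 := hk 1
    have k2 := hk 2
    have k3 := hk 3
    have k4 := hk 4
    have k5 := hk 5
    simp only [cc, Matrix.cons_val] at k0 k1 k2 k3 k4 k5
    fin_cases p <;> fin_cases q <;> simp_all) h6 v
  obtain ⟨e1, e2, e3⟩ := hz L hL
  have k0 := hv 0
  have k1 := hv 1
  have k2 := hv 2
  have k3 := hv 3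
  have k4 := hv 4
  have k5 := hv 5
  simp only [cc, Matrix.cons_val] at k0 k1 k2 k3 k4 k5
  obtain ⟨a, ha, rfl⟩ := hL
  rw [LinearMap.fst_apply] at e1 e2 e3 k0 k1 k2 k3 k4 k5
  have hb := hM.bf a ha
  have hb00 := (hb m0 m0).1 le_rfl
  have hb01 := (hb m0 m1).2 (by omega)
  have hb10 := (hb m1 m0).1 (by omega)
  have hb11 := (hb m1 m1).1 le_rfl
  rw [Nat.sub_self] at hb00 hb11
  rw [h0, h1] at hb10
  have hc : ∀ b : MvPolynomial (Fin 3) K, b.IsHomogeneous 0 → b = C (coeff 0 b) := by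
    intro b hb
    have h1 : b.totalDegree = 0 := by
      by_cases hz : b = 0
      · rw [hz, totalDegree_zero]
      · exact hb.totalDegree hz
    exact totalDegree_eq_zero_iff_eq_C.1 h1
  have hff := H44.mem_mulC_iff.1 (hM.ff a ha)
  have f0 := hff m0
  have f1 := hff m1
  simp only [Pi.add_apply, bmul, sum_two hm] at f0 f1
  rw [hb01, zero_mul, add_zero, h0] at f0
  rw [h1] at f1
  refine ⟨a.1, coeff 0 (a.2 m0 m0), coeff 0 (a.2 m1 m1), a.2 m1 m0, ?_, hb10, ?_, ?_⟩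
  · intro F
    rw [af_exp, e1, e2, e3, k0, k1, k2, k3, k4, k5, C_0]
    ring
  · rw [← hc _ hb00]
    exact f0
  · rw [← hc _ hb11, add_assoc]
    exact f1

/-! ### the four matrices -/

theorem rE02 (F : MvPolynomial (Fin 3) K) : rho 1 (X 2 * pderiv 0 F) = 0 ∧
    rho 1 (pderiv 2 (X 2 * pderiv 0 F)) = Polynomial.derivative (rho 1 F) := by
  rw [pderiv_mul, pderiv_X_self, map_add, map_mul, map_mul, map_mul, r2, derivative_rho]
  simp

theorem rE12 {F : MvPolynomial (Fin 3) K} {n : ℕ} (hF : F.IsHomogeneous n) :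
    rho 1 (X 2 * pderiv 1 F) = 0 ∧ rho 1 (pderiv 2 (X 2 * pderiv 1 F)) =
      (n : Polynomial K) * rho 1 F - Polynomial.X * Polynomial.derivative (rho 1 F) := by
  have he := congrArg (rho (K := K) 1) hF.sum_X_mul_pderiv
  rw [Fin.sum_univ_three, map_add, map_add, map_mul, map_mul, map_mul, r0, r1, r2, map_nsmul,
    nsmul_eq_mul, ← derivative_rho] at he
  refine ⟨by rw [map_mul, r2, zero_mul], ?_⟩
  rw [pderiv_mul, pderiv_X_self, map_add, map_mul, map_mul, r2, map_one]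
  linear_combination he

theorem rE01 (F : MvPolynomial (Fin 3) K) :
    rho 1 (X 1 * pderiv 0 F) = Polynomial.derivative (rho 1 F) ∧
    rho 1 (pderiv 2 (X 1 * pderiv 0 F)) = Polynomial.derivative (rho 1 (pderiv 2 F)) := by
  rw [pderiv_mul, pderiv_X_of_ne (by decide : (1 : Fin 3) ≠ 2), zero_mul, zero_add, map_mul,
    map_mul, r1, one_mul, one_mul, derivative_rho, derivative_rho, pd_comm 2 0]
  exact ⟨rfl, rfl⟩

theorem rE00 (F : MvPolynomial (Fin 3) K) :
    rho 1 (X 0 * pderiv 0 F) = Polynomial.X * Polynomial.derivative (rho 1 F) ∧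
    rho 1 (pderiv 2 (X 0 * pderiv 0 F)) =
      Polynomial.X * Polynomial.derivative (rho 1 (pderiv 2 F)) := by
  rw [pderiv_mul, pderiv_X_of_ne (by decide : (0 : Fin 3) ≠ 2), zero_mul, zero_add, map_mul,
    map_mul, r0, derivative_rho, derivative_rho, pd_comm 2 0]
  exact ⟨rfl, rfl⟩

/-- the derivative in the normal direction of a product by a constant -/
theorem rC (b : K) (F : MvPolynomial (Fin 3) K) : rho 1 (C b * F) = Polynomial.C b * rho 1 F ∧
    rho 1 (pderiv 2 (C b * F)) = Polynomial.C b * rho 1 (pderiv 2 F) := by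
  rw [pderiv_mul, pderiv_C, zero_mul, zero_add, map_mul, map_mul, rho_C]
  exact ⟨rfl, rfl⟩

theorem rM (l F : MvPolynomial (Fin 3) K) (h : rho 1 F = 0) : rho 1 (l * F) = 0 ∧
    rho 1 (pderiv 2 (l * F)) = rho 1 l * rho 1 (pderiv 2 F) := by
  rw [pderiv_mul, map_add, map_mul, map_mul, map_mul, h, mul_zero, mul_zero, zero_add]
  exact ⟨rfl, rfl⟩

/-- a polynomial which is an eigenvector of the derivative is a constant -/
theorem const_of [CharZero K] {r : Polynomial K} (hr : r ≠ 0) {b : K}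
    (h : Polynomial.derivative r + Polynomial.C b * r = 0) :
    b = 0 ∧ ∃ c, c ≠ 0 ∧ r = Polynomial.C c := by
  have h1 := T2.H80.lead hr (a := 0) (e := 1) (b := b) (by
    rw [Polynomial.C_0, zero_mul, zero_add, Polynomial.C_1, one_mul]
    exact h)
  rw [zero_mul, zero_add] at h1
  refine ⟨h1, r.coeff 0, ?_, ?_⟩
  · intro h2
    apply hr
    rw [h1, Polynomial.C_0, zero_mul, add_zero] at h
    rw [Polynomial.eq_C_of_derivative_eq_zero h, h2, Polynomial.C_0]
  · rw [h1, Polynomial.C_0, zero_mul, add_zero] at h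
    exact Polynomial.eq_C_of_derivative_eq_zero h

theorem rho_lin {l : MvPolynomial (Fin 3) K} (hl : l.IsHomogeneous 1) {k : ℕ} (hk : 1 < k) :
    (rho 1 l).coeff k = 0 := coeff_rho_gt hl hk

/-- the restrictions of the two forms -/
theorem shape [CharZero K] {d : Fin 2 → ℕ} {f : T3 K 2} (hN : Nrm d (X 2 ^ 2) f ![1, 0, 0])
    {M : Submodule K ((Fin 3 → Fin 3 → K) × (Fin 2 → Fin 2 → MvPolynomial (Fin 3) K))}
    (hM : Stb d (X 2 ^ 2) f ![1, 0, 0] M) {m0 m1 : Fin 2} (h0 : d m0 = 3) (h1 : d m1 = 4)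
    (hn : f m0 ∉ mulS (X 2 ^ 2) 1) :
    ∃ γ δ s t : K, γ ≠ 0 ∧ δ ≠ 0 ∧ rho 1 (f m0) = 0 ∧ rho 1 (pderiv 2 (f m0)) = Polynomial.C γ ∧
      rho 1 (f m1) = Polynomial.C δ ∧
      rho 1 (pderiv 2 (f m1)) = Polynomial.C s * Polynomial.X + Polynomial.C t := by
  have hm : m0 ≠ m1 := by
    rintro rfl
    omega
  have hf0 : (f m0).IsHomogeneous 3 := by
    have := hN.hf m0
    rwa [h0] at this
  have hf1 : (f m1).IsHomogeneous 4 := by
    have := hN.hf m1
    rwa [h1] at this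
  have hR := rels hN hM h0 h1 hn
  -- the cubic vanishes on the line
  have p0 : rho 1 (f m0) = 0 := by
    by_contra hne
    obtain ⟨L, b0, b, l, hL, -, e0, -⟩ := hR ![0, 0, 1, 0, 0, 0]
    obtain ⟨L', b0', b', l', hL', -, e0', -⟩ := hR ![0, 0, 0, 0, 1, 0]
    have a1 : af L (f m0) = X 2 * pderiv 0 (f m0) := by
      rw [hL]; simp
    have a2 : af L' (f m0) = X 2 * pderiv 1 (f m0) := by
      rw [hL']; simp
    rw [a1] at e0
    rw [a2] at e0'
    obtain ⟨g1, g2⟩ := of_mem_sq e0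
    obtain ⟨g1', g2'⟩ := of_mem_sq e0'
    rw [map_add, (rE02 _).1, (rC _ _).1, zero_add] at g1
    rw [map_add, map_add, (rE02 _).2, (rC _ _).2] at g2
    rw [map_add, (rE12 hf0).1, (rC _ _).1, zero_add] at g1'
    rw [map_add, map_add, (rE12 hf0).2, (rC _ _).2] at g2'
    rw [(mul_eq_zero.1 g1).resolve_right hne, zero_mul, add_zero] at g2
    rw [(mul_eq_zero.1 g1').resolve_right hne, zero_mul, add_zero, g2, mul_zero, sub_zero] at g2'
    exact hne ((mul_eq_zero.1 g2').resolve_left (by norm_num))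
  -- the normal derivative of the cubic
  have p1 : rho 1 (pderiv 2 (f m0)) ≠ 0 := fun h => hn (mem_sq hf0 p0 h)
  -- the quartic does not vanish on the line
  have p2 : rho 1 (f m1) ≠ 0 := by
    intro h
    apply hN.noln (X 2) (isHomogeneous_X K 2) (X_ne_zero 2)
    rw [H44.mem_mulC_iff]
    intro m
    rcases or_two hm m with rfl | rfl
    · exact mem_of_rho_one (hN.hf _) p0
    · exact mem_of_rho_one (hN.hf _) h
  obtain ⟨L, b0, b, l, hL, hl, e0, e1⟩ := hR ![0, 1, 0, 0, 0, 0]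
  have a0 : af L (f m0) = X 1 * pderiv 0 (f m0) := by
    rw [hL]; simp
  have a1 : af L (f m1) = X 1 * pderiv 0 (f m1) := by
    rw [hL]; simp
  rw [a0] at e0
  rw [a1] at e1
  have g0 := (of_mem_sq e0).2
  rw [map_add, map_add, (rE01 _).2, (rC _ _).2] at g0
  obtain ⟨-, γ, hγ, hγ'⟩ := const_of p1 g0
  obtain ⟨g1, g2⟩ := of_mem_sq e1
  rw [map_add, map_add, (rE01 _).1, (rM _ _ p0).1, add_zero, (rC _ _).1] at g1
  obtain ⟨hb, δ, hδ, hδ'⟩ := const_of p2 g1
  rw [map_add, map_add, map_add, map_add, (rE01 _).2, (rM _ _ p0).2, (rC _ _).2, hb,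
    Polynomial.C_0, zero_mul, add_zero, hγ'] at g2
  obtain ⟨L', b0', b', l', hL', hl', -, e1'⟩ := hR ![1, 0, 0, 0, 0, 0]
  have a1' : af L' (f m1) = X 0 * pderiv 0 (f m1) := by
    rw [hL']; simp
  rw [a1'] at e1'
  obtain ⟨g1', g2'⟩ := of_mem_sq e1'
  rw [map_add, map_add, (rE00 _).1, (rM _ _ p0).1, add_zero, (rC _ _).1, hδ',
    Polynomial.derivative_C, mul_zero, zero_add, ← Polynomial.C_mul, Polynomial.C_eq_zero] at g1'
  have hb' : b' = 0 := (mul_eq_zero.1 g1').resolve_right hδ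
  rw [map_add, map_add, map_add, map_add, (rE00 _).2, (rM _ _ p0).2, (rC _ _).2, hb',
    Polynomial.C_0, zero_mul, add_zero, hγ'] at g2'
  have c3 : (rho 1 (pderiv 2 (f m1))).coeff 3 = 0 := by
    have h := congrArg (fun p => Polynomial.coeff p 2) g2
    simp only [Polynomial.coeff_add, Polynomial.coeff_derivative, Polynomial.coeff_mul_C,
      rho_lin hl (by norm_num : 1 < 2), zero_mul, add_zero, Polynomial.coeff_zero] at h
    exact (mul_eq_zero.1 h).resolve_right (by norm_num)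
  have c2 : (rho 1 (pderiv 2 (f m1))).coeff 2 = 0 := by
    have h := congrArg (fun p => Polynomial.coeff p 2) g2'
    simp only [Polynomial.coeff_add, Polynomial.coeff_X_mul, Polynomial.coeff_derivative,
      Polynomial.coeff_mul_C, rho_lin hl' (by norm_num : 1 < 2), zero_mul, add_zero,
      Polynomial.coeff_zero] at h
    exact (mul_eq_zero.1 h).resolve_right (by norm_num)
  refine ⟨γ, δ, (rho 1 (pderiv 2 (f m1))).coeff 1, (rho 1 (pderiv 2 (f m1))).coeff 0, hγ, hδ, p0,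
    hγ', hδ', ?_⟩
  have hh : (pderiv 2 (f m1)).IsHomogeneous 3 := hf1.pderiv
  ext k
  rw [Polynomial.coeff_add, Polynomial.coeff_C_mul, Polynomial.coeff_X, Polynomial.coeff_C]
  rcases k with _ | _ | _ | _ | k
  · simp
  · simp
  · rw [c2]; simp
  · rw [c3]; simp
  · rw [coeff_rho_gt hh (by omega), if_neg (by omega), if_neg (by omega)]
    simp

/-- the configuration in the case of the double line -/
theorem dl [CharZero K] {d : Fin 2 → ℕ} {f : T3 K 2} (hN : Nrm d (X 2 ^ 2) f ![1, 0, 0])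
    {M : Submodule K ((Fin 3 → Fin 3 → K) × (Fin 2 → Fin 2 → MvPolynomial (Fin 3) K))}
    (hM : Stb d (X 2 ^ 2) f ![1, 0, 0] M) {m0 m1 : Fin 2} (h0 : d m0 = 3) (h1 : d m1 = 4)
    (hn : f m0 ∉ mulS (X 2 ^ 2) 1) : HasCfg d (X 2 ^ 2) f ![1, 0, 0] := by
  have hm : m0 ≠ m1 := by
    rintro rfl
    omega
  have hm' : m1 ≠ m0 := hm.symm
  have hf0 : (f m0).IsHomogeneous 3 := by
    have := hN.hf m0
    rwa [h0] at this
  have hf1 : (f m1).IsHomogeneous 4 := by
    have := hN.hf m1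
    rwa [h1] at this
  obtain ⟨γ, δ, s, t, hγ, hδ, p0, p1, p2, p3⟩ := shape hN hM h0 h1 hn
  have hX : ∀ i : Fin 3, (X i : MvPolynomial (Fin 3) K).IsHomogeneous 1 := isHomogeneous_X K
  have hCh : ∀ a : K, (C a : MvPolynomial (Fin 3) K).IsHomogeneous 0 := isHomogeneous_C _
  have hw : (C s * X 0 + C t * X 1 : MvPolynomial (Fin 3) K).IsHomogeneous 1 := by
    have e1 := (hCh s).mul (hX 0)
    have e2 := (hCh t).mul (hX 1)
    rw [zero_add] at e1 e2
    exact e1.add e2
  obtain ⟨w, hwd⟩ : ∃ w : MvPolynomial (Fin 3) K, w = C s * X 0 + C t * X 1 := ⟨_, rfl⟩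
  rw [← hwd] at hw
  have m0' : f m0 - C γ * (X 1 ^ 2 * X 2) ∈ mulS (X 2 ^ 2) 1 := by
    refine mem_sq (hf0.sub ?_) ?_ ?_
    · have e1 := (hCh γ).mul (((hX 1).pow 2).mul (hX 2))
      simpa using e1
    · rw [map_sub, map_mul, map_mul, r2, p0]
      simp
    · have e1 : pderiv 2 (X 1 ^ 2 * X 2 : MvPolynomial (Fin 3) K) = X 1 ^ 2 := by
        rw [pderiv_mul, pderiv_X_self, pderiv_pow, pderiv_X_of_ne (by decide : (1 : Fin 3) ≠ 2)]
        ring
      rw [map_sub, map_sub, (rC _ _).2, p1, e1, map_pow, r1]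
      simp
  have m1' : f m1 - (C δ * X 1 ^ 4 + X 1 ^ 2 * X 2 * w) ∈ mulS (X 2 ^ 2) 2 := by
    refine mem_sq (hf1.sub ?_) ?_ ?_
    · have e1 := (hCh δ).mul ((hX 1).pow 4)
      have e2 := (((hX 1).pow 2).mul (hX 2)).mul hw
      rw [zero_add] at e1
      exact e1.add e2
    · rw [map_sub, map_add, map_mul, map_mul, map_mul, map_pow, map_pow, rho_C, r1, r2, p2]
      simp
    · have e1 : pderiv 2 (X 1 ^ 2 * X 2 * w) = X 1 ^ 2 * w + X 2 * (X 1 ^ 2 * pderiv 2 w) := by
        rw [pderiv_mul, pderiv_mul, pderiv_X_self, pderiv_pow,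
          pderiv_X_of_ne (by decide : (1 : Fin 3) ≠ 2)]
        ring
      have e2 : pderiv 2 (X 1 ^ 4 : MvPolynomial (Fin 3) K) = 0 := by
        rw [pderiv_pow, pderiv_X_of_ne (by decide : (1 : Fin 3) ≠ 2), mul_zero]
      rw [map_sub, map_sub, map_add, map_add, (rC _ _).2, p3, e1, e2, map_add, map_mul, map_mul,
        r2, map_pow, r1, hwd, map_add, map_mul, map_mul, rho_C, rho_C, r0, r1]
      simp
  have hmul : ∀ G ∈ mulS (X 2 ^ 2 : MvPolynomial (Fin 3) K) 1, w * G ∈ mulS (X 2 ^ 2) 2 := by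
    intro G hG
    obtain ⟨b, hb, rfl⟩ := mem_mulS.1 hG
    exact mem_mulS.2 ⟨w * b, hw.mul hb, by ring⟩
  have hCi : ∀ a : K, a ≠ 0 → (C a : MvPolynomial (Fin 3) K) * C a⁻¹ = 1 := by
    intro a ha
    rw [← C_mul, mul_inv_cancel₀ ha, C_1]
  have hw' : (-(C (γ⁻¹ * δ⁻¹) * w)).IsHomogeneous 1 := by
    have e1 := (hCh (γ⁻¹ * δ⁻¹)).mul hw
    rw [zero_add] at e1
    exact e1.neg
  refine ⟨T2.H32.one3, mk m0 γ⁻¹ δ⁻¹ (-(C (γ⁻¹ * δ⁻¹) * w)), mk m0 γ δ w, X 2 ^ 2,
    fun m => if m = m0 then X 1 ^ 2 * X 2 else X 1 ^ 4, ![1, 0, 0], 1, 1, ?_, one_ne_zero, ?_,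
    mk_BF h0 h1 _ _ hw', mk_BF h0 h1 _ _ hw, ?_, ?_, ?_⟩
  · have F : H44.Frm (T2.H32.one3 : Fin 3 → Fin 3 → K) T2.H32.one3 0 0 := by
      refine ⟨?_, ?_, fun j => by simp⟩
      · funext i j
        simp [T2.H32.mm, T2.H32.one3]
      · funext i j
        simp [T2.H32.mm, T2.H32.one3]
    exact F.li
  · rw [T2.H32.ssub_one, C_1, one_mul]
    simp
  · intro m m'
    rw [sum_two hm]
    rcases or_two hm m with rfl | rfl <;> rcases or_two hm m' with rfl | rfl
    · simp only [mk, if_true, if_neg hm', zero_mul, add_zero]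
      exact hCi γ hγ
    · simp [mk, hm', hm]
    · simp only [mk, if_true, if_neg hm']
      rw [C_mul]
      linear_combination (-w * C γ⁻¹) * (hCi δ hδ)
    · simp only [mk, if_true, if_neg hm', mul_zero, zero_add]
      exact hCi δ hδ
  · rw [H44.mem_mulC_iff]
    intro m
    have hq : MvPolynomial.map (Int.castRingHom K) (X 2 ^ 2 : MvPolynomial (Fin 3) ℤ) = X 2 ^ 2 := by
      simp
    rw [hq]
    simp only [Pi.sub_apply, bmul, sum_two hm, T2.H32.ssub_one]
    rcases or_two hm m with rfl | rfl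
    · simp only [mk, if_true, if_neg hm', zero_mul, add_zero]
      rw [h0]
      have e1 := (mulS (X 2 ^ 2 : MvPolynomial (Fin 3) K) 1).smul_mem γ⁻¹ m0'
      convert e1 using 1
      rw [smul_eq_C_mul]
      simp only [map_mul, map_pow, map_X]
      linear_combination (X 1 ^ 2 * X 2) * (hCi γ hγ)
    · simp only [mk, if_true, if_neg hm']
      rw [h1]
      have e1 := (mulS (X 2 ^ 2 : MvPolynomial (Fin 3) K) 2).smul_mem δ⁻¹ m1'
      have e2 := (mulS (X 2 ^ 2 : MvPolynomial (Fin 3) K) 2).smul_mem (γ⁻¹ * δ⁻¹) (hmul _ m0')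
      have e3 := sub_mem e1 e2
      convert e3 using 1
      rw [smul_eq_C_mul, smul_eq_C_mul]
      simp only [map_pow, map_X, C_mul]
      linear_combination (X 1 ^ 4) * (hCi δ hδ) - (C δ⁻¹ * w * X 1 ^ 2 * X 2) * (hCi γ hγ)
  · intro j
    rw [Fin.sum_univ_three]
    fin_cases j <;> simp [T2.H32.one3]

end

theorem n34 : N34Statement := by
  intro hQ K _ _ _ d q f y hN M hM m0 m1 h0 h1 hn
  obtain ⟨q0, f', M', hN', hM', hC, hmul, -, hq0⟩ := H44.reduce hQ hN hM
  apply hC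
  have hn' : f' m0 ∉ mulS q0 1 := fun h => hn ((hmul m0 1).1 h)
  have h6 := proj_six hN' hM' h0 h1 hn'
  have hy : ∀ L ∈ (M'.map (LinearMap.fst K _ _) : Submodule K (Fin 3 → Fin 3 → K)),
      (L 1 0 = 0 ∧ L 2 0 = 0) ∧ ∃ e, af L q0 = C e * q0 := by
    rintro _ ⟨a, ha, rfl⟩
    exact ⟨ent_y (hM'.fy a ha), hM'.fq a ha⟩
  rcases hq0 with rfl | rfl | rfl | rfl
  · exfalso
    have h5 := le_card (P := M'.map (LinearMap.fst K _ _))
      (![(0, 0), (0, 1), (1, 1), (1, 2), (2, 2)] : Fin 5 → Fin 3 × Fin 3) (fun L hL hk => by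
        obtain ⟨⟨e1, e2⟩, e3⟩ := hy L hL
        obtain ⟨e4, e5⟩ := ent1 e1 e2 e3
        funext p q
        have k0 := hk 0
        have k1 := hk 1
        have k2 := hk 2
        have k3 := hk 3
        have k4 := hk 4
        simp only [Matrix.cons_val] at k0 k1 k2 k3 k4
        fin_cases p <;> fin_cases q <;> simp_all)
    omega
  · exfalso
    have h5 := le_card (P := M'.map (LinearMap.fst K _ _))
      (![(0, 0), (1, 0), (1, 1), (1, 2), (2, 2)] : Fin 5 → Fin 3 × Fin 3) (fun L hL hk => by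
        obtain ⟨⟨e1, e2⟩, e3⟩ := hy L hL
        obtain ⟨e4, e5, e6, e7⟩ := ent2 e3
        funext p q
        have k0 := hk 0
        have k1 := hk 1
        have k2 := hk 2
        have k3 := hk 3
        have k4 := hk 4
        simp only [Matrix.cons_val] at k0 k1 k2 k3 k4
        fin_cases p <;> fin_cases q <;> simp_all)
    omega
  · exfalso
    have h5 := le_card (P := M'.map (LinearMap.fst K _ _))
      (![(0, 0), (0, 1), (0, 2), (1, 1), (2, 2)] : Fin 5 → Fin 3 × Fin 3) (fun L hL hk => by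
        obtain ⟨⟨e1, e2⟩, e, e3⟩ := hy L hL
        obtain ⟨e4, e5, e6, e7⟩ := T2.H80.entries (L := L) (c := e) (c' := L 0 0) (fun j => by
          fin_cases j <;> simp [Fin.sum_univ_three, e1, e2]) e3
        funext p q
        have k0 := hk 0
        have k1 := hk 1
        have k2 := hk 2
        have k3 := hk 3
        have k4 := hk 4
        simp only [Matrix.cons_val] at k0 k1 k2 k3 k4
        fin_cases p <;> fin_cases q <;> simp_all)
    omega
  · exact dl hN' hM' h0 h1 hn'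

end Pool.Agent.T2C.H84
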