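import Pool.Agent.Lib.MP_c7af3c_ag.T2C.H84.Tup
import Pool.Agent.Lib.MP_c7af3c_ag.T2.H42.Core

/-!
# MP_c7af3c_ag, project T2C, row P_QINTB (helper84): the product lemma

`BrT e R q β`: the hypotheses of the row, degrees `d m = e m + 2`, `Σ e m + c = 5`, `c ≤ 3`.
Smooth conic: `brT_RC`; a product of two linear forms (equal or not): `brT_lines`.
-/

set_option autoImplicit false

namespace Pool.Agent.T2C.H84

open Module MvPolynomial
open Pool.Agent.T2 (S3 mulS)
open Pool.Agent.T2.H42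

variable {K : Type} [Field K] {c : ℕ}

/-- the hypotheses of the row -/
structure BrT (e : Fin c → ℕ) (R : Submodule K (Tup K c)) (q : MvPolynomial (Fin 3) K)
    (β : Tup K c →ₗ[K] MvPolynomial (Fin 3) K) : Prop where
  se : ∑ m, e m + c = 5
  c3 : c ≤ 3
  hR : R ≤ TS K fun m => e m + 2
  dim : finrank K R + (3 * c + 5) = ∑ m, (e m + 4).choose 2
  line : ∀ z : MvPolynomial (Fin 3) K, z.IsHomogeneous 1 → z ≠ 0 →
    ∑ m, (e m + 4).choose 2 ≤
      finrank K (R ⊔ (TS K fun m => e m + 1).map (sm z) : Submodule K (Tup K c)) + (2 * c + 2)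
  hq : q.IsHomogeneous 2
  q0 : q ≠ 0
  qR : ∀ A ∈ TS K e, q • A ∈ R
  hβ : ∀ A ∈ TS K e, (β A).IsHomogeneous 2
  br : ∀ A ∈ TS K e, ∀ A' ∈ TS K e, β A • A' - β A' • A ∈ R

/-! ### the numbers -/

theorem sums (e : Fin c → ℕ) :
    ∑ m, (e m + 4).choose 2 = 2 * ∑ m, e m + 5 * c + ∑ m, (e m + 2).choose 2 ∧
    ∑ m, (e m + 3).choose 2 = ∑ m, e m + 2 * c + ∑ m, (e m + 2).choose 2 ∧
    ∑ m, (e m + 2).choose 2 = ∑ m, e m + c + ∑ m, (e m + 1).choose 2 ∧
    ∑ m, (e m + 2).choose 2 = 2 * ∑ m, e m + c + ∑ m, (e m).choose 2 := by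
  have h1 : ∀ d : ℕ, (d + 1).choose 2 = d + d.choose 2 := fun d => by
    have h4 : (d + 1).choose 2 = d.choose 1 + d.choose 2 := rfl
    rw [Nat.choose_one_right] at h4
    exact h4
  have a1 : ∀ d : ℕ, (d + 2).choose 2 = d + 1 + (d + 1).choose 2 := fun d => h1 (d + 1)
  have a2 : ∀ d : ℕ, (d + 3).choose 2 = d + 2 + (d + 2).choose 2 := fun d => h1 (d + 2)
  have a3 : ∀ d : ℕ, (d + 4).choose 2 = d + 3 + (d + 3).choose 2 := fun d => h1 (d + 3)
  have e3 : ∀ (f : Fin c → ℕ) (g : Fin c → ℕ) (a b : ℕ),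
      (∀ m, f m = a * e m + b + g m) → ∑ m, f m = a * ∑ m, e m + b * c + ∑ m, g m := by
    intro f g a b h
    rw [Finset.sum_congr rfl fun m _ => h m, Finset.sum_add_distrib, Finset.sum_add_distrib,
      ← Finset.mul_sum, Finset.sum_const, Finset.card_univ, Fintype.card_fin, smul_eq_mul,
      mul_comm c b]
  refine ⟨?_, ?_, ?_, ?_⟩
  · exact e3 _ _ 2 5 fun m => by rw [a3, a2]; ring
  · have := e3 (fun m => (e m + 3).choose 2) (fun m => (e m + 2).choose 2) 1 2
      fun m => by rw [a2]; ring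
    rw [one_mul] at this
    exact this
  · have := e3 (fun m => (e m + 2).choose 2) (fun m => (e m + 1).choose 2) 1 1
      fun m => by rw [a1]; ring
    rw [one_mul, one_mul] at this
    exact this
  · have := e3 (fun m => (e m + 2).choose 2) (fun m => (e m).choose 2) 2 1
      fun m => by rw [a1, h1]; ring
    rw [one_mul] at this
    exact this

variable {e : Fin c → ℕ} {R : Submodule K (Tup K c)} {q : MvPolynomial (Fin 3) K}
  {β : Tup K c →ₗ[K] MvPolynomial (Fin 3) K}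

theorem BrT.finR (h : BrT e R q β) : FiniteDimensional K R :=
  Submodule.finiteDimensional_of_le h.hR

/-! ### the image and the kernel -/

/-- the image of `β` -/
noncomputable def II (e : Fin c → ℕ) (β : Tup K c →ₗ[K] MvPolynomial (Fin 3) K) :
    Submodule K (MvPolynomial (Fin 3) K) := (TS K e).map β

/-- the kernel of `β` modulo `q` -/
noncomputable def KK (e : Fin c → ℕ) (q : MvPolynomial (Fin 3) K)
    (β : Tup K c →ₗ[K] MvPolynomial (Fin 3) K) : Submodule K (Tup K c) :=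
  TS K e ⊓ (Submodule.span K {q}).comap β

instance : FiniteDimensional K (II e β) := by
  unfold II
  infer_instance

instance : FiniteDimensional K (KK e q β) := Submodule.finiteDimensional_inf_left _ _

instance fin_inf_left' {V : Type} [AddCommGroup V] [Module K V] (S T : Submodule K V)
    [FiniteDimensional K S] : FiniteDimensional K (S ⊓ T : Submodule K V) :=
  Submodule.finiteDimensional_inf_left _ _

theorem mem_KK {A : Tup K c} : A ∈ KK e q β ↔ A ∈ TS K e ∧ β A ∈ Submodule.span K {q} := Iff.rfl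

/-- rank and nullity -/
theorem rank_KK : finrank K (KK e q β) + finrank K (II e β) =
    finrank K (TS K e) + finrank K (II e β ⊓ Submodule.span K {q} :
      Submodule K (MvPolynomial (Fin 3) K)) := by
  have e1 := fin_map_add (TS K e) β
  have e2 := fin_map_add (KK e q β) β
  have e3 : (KK e q β).map β = II e β ⊓ Submodule.span K {q} := by
    ext x
    constructor
    · rintro ⟨A, hA, rfl⟩
      exact Submodule.mem_inf.2 ⟨⟨A, (mem_KK.1 hA).1, rfl⟩, (mem_KK.1 hA).2⟩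
    · intro hx
      obtain ⟨A, hA, rfl⟩ := (Submodule.mem_inf.1 hx).1
      exact ⟨A, mem_KK.2 ⟨hA, (Submodule.mem_inf.1 hx).2⟩, rfl⟩
  have e4 : KK e q β ⊓ LinearMap.ker β = TS K e ⊓ LinearMap.ker β := by
    refine le_antisymm (inf_le_inf_right _ inf_le_left) (le_inf (le_inf inf_le_left ?_) inf_le_right)
    intro A hA
    have h1 : β A = 0 := LinearMap.mem_ker.1 (Submodule.mem_inf.1 hA).2
    change β A ∈ Submodule.span K {q}
    rw [h1]
    exact Submodule.zero_mem _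
  rw [e3, e4] at e2
  unfold II at e2 ⊢
  omega

/-- the products -/
theorem BrT.prod (h : BrT e R q β) : ∀ i ∈ II e β, ∀ A ∈ KK e q β, i • A ∈ R := by
  rintro _ ⟨A', hA', rfl⟩ A hA
  have h1 := h.br A (mem_KK.1 hA).1 A' hA'
  obtain ⟨a, ha⟩ := Submodule.mem_span_singleton.1 (mem_KK.1 hA).2
  have h2 : β A • A' ∈ R := by
    rw [← ha]
    have h3 := h.qR (a • A') ((TS K e).smul_mem a hA')
    rw [smul_comm, ← smul_assoc] at h3
    exact h3
  have h4 := R.sub_mem h2 h1
  rwa [sub_sub_cancel] at h4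

theorem II_le (h : BrT e R q β) : II e β ≤ S3 K 2 := by
  rintro _ ⟨A, hA, rfl⟩
  exact h.hβ A hA

/-- the conclusion -/
theorem BrT.finish (_h : BrT e R q β) (h0 : finrank K (II e β) ≤
    finrank K (II e β ⊓ Submodule.span K {q} : Submodule K (MvPolynomial (Fin 3) K))) :
    ∀ A ∈ TS K e, ∃ a, β A = C a * q := by
  intro A hA
  have h1 : II e β ⊓ Submodule.span K {q} = II e β :=
    Submodule.eq_of_le_of_finrank_le inf_le_left h0
  have h2 : β A ∈ II e β := ⟨A, hA, rfl⟩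
  rw [← h1] at h2
  obtain ⟨a, ha⟩ := Submodule.mem_span_singleton.1 (Submodule.mem_inf.1 h2).2
  exact ⟨a, by rw [← ha, smul_eq_C_mul]⟩

theorem ne_bot_of_pos {V : Type} [AddCommGroup V] [Module K V] {S : Submodule K V}
    (h : finrank K S ≠ 0) : S ≠ ⊥ := by
  rintro rfl
  exact h (finrank_bot K V)

/-! ### the smooth conic -/

theorem brT_RC (h : BrT e R q β) {ρ : MvPolynomial (Fin 3) K →ₐ[K] Polynomial K} (hρ : RC ρ q) :
    ∀ A ∈ TS K e, ∃ a, β A = C a * q := by
  have hfin := h.finR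
  obtain ⟨n1, n2, n3, n4⟩ := sums e
  have hse := h.se
  have hc3 := h.c3
  have d1 := h.dim
  -- the image
  have i1 := fin_map_add (II e β) (lm ρ)
  have i2 : II e β ⊓ LinearMap.ker (lm ρ) ≤ II e β ⊓ Submodule.span K {q} := by
    intro x hx
    refine Submodule.mem_inf.2 ⟨(Submodule.mem_inf.1 hx).1, ?_⟩
    obtain ⟨a, ha⟩ := mem_mulS_zero (hρ.ker (d := 0) (II_le h (Submodule.mem_inf.1 hx).1)
      (LinearMap.mem_ker.1 (Submodule.mem_inf.1 hx).2))
    rw [Submodule.mem_span_singleton]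
    exact ⟨a, by rw [ha, smul_eq_C_mul, mul_comm]⟩
  have i3 := Submodule.finrank_mono i2
  have i4 : finrank K ((II e β).map (lm ρ)) ≤ 6 := by
    refine le_trans (Submodule.finrank_map_le _ _) ?_
    refine le_trans (Submodule.finrank_mono (II_le h)) ?_
    rw [dim_S3]
    decide
  -- the kernel
  have k0 := rank_KK (e := e) (q := q) (β := β)
  have k1 := fin_map_add (KK e q β) (rt ρ)
  have k2 : finrank K (KK e q β ⊓ LinearMap.ker (rt ρ) : Submodule K (Tup K c)) ≤
      ∑ m, (e m).choose 2 :=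
    le_trans (Submodule.finrank_mono (inf_le_inf_right _ inf_le_left))
      (finrank_TS_ker_le ρ e _ fun m => RC.ker_le' hρ (e m))
  have t0 := dim_TS (K := K) e
  -- the image of `R`
  have r1 := fin_map_add R (rt ρ)
  have r2 : (TS K e).map (sm q) ≤ R ⊓ LinearMap.ker (rt ρ) := by
    rintro _ ⟨A, hA, rfl⟩
    refine Submodule.mem_inf.2 ⟨h.qR A hA, ?_⟩
    rw [LinearMap.mem_ker, sm_apply, rt_smul, hρ.ρq, zero_smul]
  have r3 := Submodule.finrank_mono r2
  rw [finrank_map_sm h.q0] at r3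
  -- the product
  have p1 : finrank K ((II e β).map (lm ρ)) ≠ 0 → finrank K ((KK e q β).map (rt ρ)) ≠ 0 →
      finrank K ((II e β).map (lm ρ)) + finrank K ((KK e q β).map (rt ρ)) ≤
      finrank K (R.map (rt ρ)) + 1 := by
    intro g1 g2
    refine prodT _ _ _ (ne_bot_of_pos g1) (ne_bot_of_pos g2) ?_
    rintro _ ⟨i, hi, rfl⟩ _ ⟨A, hA, rfl⟩
    exact ⟨i • A, h.prod i hi A hA, rt_smul ρ i A⟩
  refine h.finish ?_
  have s0 : finrank K (II e β ⊓ Submodule.span K {q} : Submodule K (MvPolynomial (Fin 3) K)) ≤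
      finrank K (II e β) := Submodule.finrank_mono inf_le_left
  omega

/-! ### lines -/

/-- the forms `F` with `l * F ∈ R` -/
noncomputable def NT (e : Fin c → ℕ) (R : Submodule K (Tup K c)) (l : MvPolynomial (Fin 3) K) :
    Submodule K (Tup K c) :=
  (TS K fun m => e m + 1) ⊓ R.comap (sm l)

instance (l : MvPolynomial (Fin 3) K) : FiniteDimensional K (NT e R l) :=
  Submodule.finiteDimensional_inf_left _ _

theorem mem_NT {l : MvPolynomial (Fin 3) K} {F : Tup K c} :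
    F ∈ NT e R l ↔ (∀ m, (F m).IsHomogeneous (e m + 1)) ∧ l • F ∈ R := by
  unfold NT
  rw [Submodule.mem_inf, mem_TS]
  rfl

/-- the quotient by a line, for one of the two lines -/
theorem half (h : BrT e R q β) {l m : MvPolynomial (Fin 3) K}
    {ρ σ : MvPolynomial (Fin 3) K →ₐ[K] Polynomial K} (hρ : RL ρ l) (hσ : RL σ m)
    (hq : q = l * m) : ∃ b1' k1' w1 w2 : ℕ,
    (finrank K ((II e β).map (lm ρ)) + b1' + finrank K (II e β ⊓ Submodule.span K {q} :
      Submodule K (MvPolynomial (Fin 3) K)) = finrank K (II e β)) ∧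
    finrank K ((II e β).map (lm ρ)) ≤ 3 ∧ b1' ≤ 2 ∧
    finrank K (KK e q β) ≤ finrank K ((KK e q β).map (rt ρ)) + ∑ m, (e m + 1).choose 2 ∧
    finrank K (KK e q β) ≤ finrank K ((KK e q β).map (rt ρ)) + k1' + ∑ m, (e m).choose 2 ∧
    w1 + w2 ≤ 5 ∧ w2 ≤ 2 ∧
    (finrank K ((II e β).map (lm ρ)) ≠ 0 → finrank K ((KK e q β).map (rt ρ)) ≠ 0 →
      finrank K ((II e β).map (lm ρ)) + finrank K ((KK e q β).map (rt ρ)) ≤ w1 + 1) ∧
    (b1' ≠ 0 → finrank K ((KK e q β).map (rt σ)) ≠ 0 →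
      b1' + finrank K ((KK e q β).map (rt σ)) ≤ w2 + 1) ∧
    (finrank K ((II e β).map (lm σ)) ≠ 0 → k1' ≠ 0 →
      finrank K ((II e β).map (lm σ)) + k1' ≤ w2 + 1) := by
  have hfin := h.finR
  obtain ⟨n1, n2, n3, n4⟩ := sums e
  have hse := h.se
  have hc3 := h.c3
  have d1 := h.dim
  have t0 := dim_TS (K := K) e
  have t1 := dim_TS (K := K) fun m => e m + 1
  have t1' : ∑ m, (e m + 1 + 2).choose 2 = ∑ m, (e m + 3).choose 2 := rfl
  -- division by `l`
  obtain ⟨g, hg⟩ := LinearMap.exists_leftInverse_of_injective (LinearMap.mulLeft K l) (by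
    rw [LinearMap.ker_eq_bot']
    intro x hx
    exact (mul_eq_zero.1 hx).resolve_left hρ.l0)
  have hg' : ∀ x, g (l * x) = x := fun x => LinearMap.congr_fun hg x
  -- division of forms
  have hdiv : ∀ (d : ℕ) (F : MvPolynomial (Fin 3) K), F.IsHomogeneous d → ρ F = 0 →
      l * g F = F ∧ (g F).IsHomogeneous (d - 1) ∧ (d = 0 → g F = 0) := by
    intro d F hF h0
    rcases d with _ | d
    · have hF0 : F = 0 := by
        have e1 := RL.ker_le hρ 0
        have e2 : F ∈ S3 K 0 ⊓ LinearMap.ker (lm ρ) :=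
          Submodule.mem_inf.2 ⟨hF, LinearMap.mem_ker.2 h0⟩
        have e3 : S3 K 0 ⊓ LinearMap.ker (lm ρ) = ⊥ := by
          rw [← Submodule.finrank_eq_zero (R := K)]
          have e4 : (0 + 1).choose 2 = 0 := rfl
          omega
        rw [e3, Submodule.mem_bot] at e2
        exact e2
      subst hF0
      rw [map_zero, mul_zero]
      exact ⟨rfl, isHomogeneous_zero _ _ _, fun _ => rfl⟩
    · obtain ⟨b, hb, hb'⟩ := hρ.ker (d := d) hF h0
      have hb2 : l * b = F := hb'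
      rw [← hb2, hg']
      exact ⟨rfl, hb, fun h => absurd h (Nat.succ_ne_zero d)⟩
  -- division of tuples
  let G : Tup K c →ₗ[K] Tup K c := LinearMap.pi fun m => g ∘ₗ LinearMap.proj m
  have hG : ∀ A ∈ TS K e, rt ρ A = 0 → l • G A = A ∧
      (∀ m, (G A m).IsHomogeneous (e m - 1)) ∧ ∀ m, e m = 0 → G A m = 0 := by
    intro A hA h0
    rw [rt_eq_zero] at h0
    have hA' := mem_TS.1 hA
    refine ⟨funext fun m => (hdiv (e m) (A m) (hA' m) (h0 m)).1, fun m => ?_, fun m hm => ?_⟩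
    · exact (hdiv (e m) (A m) (hA' m) (h0 m)).2.1
    · exact (hdiv (e m) (A m) (hA' m) (h0 m)).2.2 hm
  have hρq : ρ q = 0 := by rw [hq, map_mul, hρ.ρl, zero_mul]
  set ψ := lm σ ∘ₗ g with hψ
  set Ψ : Tup K c →ₗ[K] (Fin c → Polynomial K) := rt σ ∘ₗ G with hΨ
  -- the image
  have i1 := fin_map_add (II e β) (lm ρ)
  have i2 := fin_map_add (II e β ⊓ LinearMap.ker (lm ρ)) ψ
  have i3 : II e β ⊓ LinearMap.ker (lm ρ) ⊓ LinearMap.ker ψ = II e β ⊓ Submodule.span K {q} := by
    ext x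
    constructor
    · intro hx
      have x1 := (Submodule.mem_inf.1 (Submodule.mem_inf.1 hx).1).1
      have x2 : ρ x = 0 := LinearMap.mem_ker.1 (Submodule.mem_inf.1 (Submodule.mem_inf.1 hx).1).2
      have x3 : σ (g x) = 0 := LinearMap.mem_ker.1 (Submodule.mem_inf.1 hx).2
      obtain ⟨y1, y2, -⟩ := hdiv 2 x (II_le h x1) x2
      obtain ⟨a, ha⟩ := mem_mulS_zero (hσ.ker (d := 0) y2 x3)
      refine Submodule.mem_inf.2 ⟨x1, ?_⟩
      rw [Submodule.mem_span_singleton]
      refine ⟨a, ?_⟩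
      rw [smul_eq_C_mul, hq, ← y1, ha]
      ring
    · intro hx
      have x1 := (Submodule.mem_inf.1 hx).1
      obtain ⟨a, ha⟩ := Submodule.mem_span_singleton.1 (Submodule.mem_inf.1 hx).2
      refine Submodule.mem_inf.2 ⟨Submodule.mem_inf.2 ⟨x1, ?_⟩, ?_⟩
      · rw [LinearMap.mem_ker]
        change ρ x = 0
        rw [← ha, map_smul, hρq, smul_zero]
      · rw [LinearMap.mem_ker]
        change σ (g x) = 0
        have : x = l * (a • m) := by rw [← ha, hq, mul_smul_comm]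
        rw [this, hg', map_smul, hσ.ρl, smul_zero]
  rw [i3] at i2
  have i4 : finrank K ((II e β).map (lm ρ)) ≤ 3 := by
    refine le_trans (Submodule.finrank_mono ?_) (RL.map_le' hρ 2)
    exact Submodule.map_mono (II_le h)
  have i5 : finrank K ((II e β ⊓ LinearMap.ker (lm ρ)).map ψ) ≤ 2 := by
    refine le_trans (Submodule.finrank_mono ?_) (RL.map_le' hσ 1)
    rintro _ ⟨x, hx, rfl⟩
    exact ⟨g x, (hdiv 2 x (II_le h (Submodule.mem_inf.1 hx).1)
      (LinearMap.mem_ker.1 (Submodule.mem_inf.1 hx).2)).2.1, rfl⟩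
  -- the kernel
  have k1 := fin_map_add (KK e q β) (rt ρ)
  have k2 := fin_map_add (KK e q β ⊓ LinearMap.ker (rt ρ)) Ψ
  have k3 : finrank K (KK e q β ⊓ LinearMap.ker (rt ρ) : Submodule K (Tup K c)) ≤
      ∑ m, (e m + 1).choose 2 :=
    le_trans (Submodule.finrank_mono (inf_le_inf_right _ inf_le_left))
      (finrank_TS_ker_le ρ e _ fun m => RL.ker_le hρ (e m))
  have k4 : finrank K (KK e q β ⊓ LinearMap.ker (rt ρ) ⊓ LinearMap.ker Ψ :
      Submodule K (Tup K c)) ≤ ∑ m, (e m).choose 2 := by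
    have : FiniteDimensional K (TS K (fun m => e m - 1) ⊓ LinearMap.ker (rt σ) :
      Submodule K (Tup K c)) := Submodule.finiteDimensional_inf_left _ _
    have u1 : finrank K (TS K (fun m => e m - 1) ⊓ LinearMap.ker (rt σ) :
        Submodule K (Tup K c)) ≤ ∑ m, (e m).choose 2 := by
      refine finrank_TS_ker_le σ _ _ fun m => ?_
      refine le_trans (RL.ker_le hσ _) ?_
      rcases Nat.eq_zero_or_pos (e m) with h0 | h0
      · rw [h0]
        decide
      · rw [Nat.sub_add_cancel h0]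
    refine le_trans ?_ u1
    rw [← finrank_map_sm hρ.l0 (TS K (fun m => e m - 1) ⊓ LinearMap.ker (rt σ))]
    refine Submodule.finrank_mono ?_
    intro A hA
    have x1 := (Submodule.mem_inf.1 (Submodule.mem_inf.1 hA).1).1
    have x2 : rt ρ A = 0 := LinearMap.mem_ker.1 (Submodule.mem_inf.1 (Submodule.mem_inf.1 hA).1).2
    have x3 : rt σ (G A) = 0 := LinearMap.mem_ker.1 (Submodule.mem_inf.1 hA).2
    obtain ⟨y1, y2, -⟩ := hG A (mem_KK.1 x1).1 x2
    exact ⟨G A, Submodule.mem_inf.2 ⟨mem_TS.2 y2, LinearMap.mem_ker.2 x3⟩, y1⟩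
  -- `R`
  have r1 := fin_map_add R (rt ρ)
  have r2 : finrank K (NT e R l) ≤ finrank K (R ⊓ LinearMap.ker (rt ρ) :
      Submodule K (Tup K c)) := by
    rw [← finrank_map_sm hρ.l0 (NT e R l)]
    refine Submodule.finrank_mono ?_
    rintro _ ⟨F, hF, rfl⟩
    refine Submodule.mem_inf.2 ⟨(mem_NT.1 hF).2, ?_⟩
    rw [LinearMap.mem_ker, sm_apply, rt_smul, hρ.ρl, zero_smul]
  have r3 := fin_map_add (NT e R l) (rt σ)
  have r4 : (TS K e).map (sm m) ≤ NT e R l ⊓ LinearMap.ker (rt σ) := by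
    rintro _ ⟨A, hA, rfl⟩
    refine Submodule.mem_inf.2 ⟨mem_NT.2 ⟨fun i => ?_, ?_⟩, ?_⟩
    · have := hσ.hl.mul (mem_TS.1 hA i)
      rw [add_comm] at this
      exact this
    · rw [sm_apply, smul_smul, ← hq]
      exact h.qR A hA
    · rw [LinearMap.mem_ker, sm_apply, rt_smul, hσ.ρl, zero_smul]
  have r5 := Submodule.finrank_mono r4
  rw [finrank_map_sm hσ.l0] at r5
  have r6 : finrank K (NT e R l) ≤ finrank K (R ⊓ (TS K fun m => e m + 1).map (sm l) :
      Submodule K (Tup K c)) := by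
    rw [← finrank_map_sm hρ.l0 (NT e R l)]
    refine Submodule.finrank_mono ?_
    rintro _ ⟨F, hF, rfl⟩
    exact Submodule.mem_inf.2 ⟨(mem_NT.1 hF).2, ⟨F, mem_TS.2 (mem_NT.1 hF).1, rfl⟩⟩
  have r7 := Submodule.finrank_sup_add_finrank_inf_eq R ((TS K fun m => e m + 1).map (sm l))
  rw [finrank_map_sm hρ.l0] at r7
  have r8 := h.line l hρ.hl hρ.l0
  refine ⟨finrank K ((II e β ⊓ LinearMap.ker (lm ρ)).map ψ),
    finrank K ((KK e q β ⊓ LinearMap.ker (rt ρ)).map Ψ), finrank K (R.map (rt ρ)),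
    finrank K ((NT e R l).map (rt σ)), by omega, i4, i5, by omega, by omega, by omega,
    by omega, ?_, ?_, ?_⟩
  · intro g1 g2
    refine prodT _ _ _ (ne_bot_of_pos g1) (ne_bot_of_pos g2) ?_
    rintro _ ⟨i, hi, rfl⟩ _ ⟨A, hA, rfl⟩
    exact ⟨i • A, h.prod i hi A hA, rt_smul ρ i A⟩
  · intro g1 g2
    refine prodT _ _ _ (ne_bot_of_pos g1) (ne_bot_of_pos g2) ?_
    rintro _ ⟨i, hi, rfl⟩ _ ⟨A, hA, rfl⟩
    obtain ⟨y1, y2, -⟩ := hdiv 2 i (II_le h (Submodule.mem_inf.1 hi).1)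
      (LinearMap.mem_ker.1 (Submodule.mem_inf.1 hi).2)
    refine ⟨g i • A, mem_NT.2 ⟨fun j => ?_, ?_⟩, rt_smul σ (g i) A⟩
    · have := y2.mul (mem_TS.1 (mem_KK.1 hA).1 j)
      rw [add_comm] at this
      exact this
    · rw [smul_smul, y1]
      exact h.prod i (Submodule.mem_inf.1 hi).1 A hA
  · intro g1 g2
    refine prodT _ _ _ (ne_bot_of_pos g1) (ne_bot_of_pos g2) ?_
    rintro _ ⟨i, hi, rfl⟩ _ ⟨A, hA, rfl⟩
    have x1 := (Submodule.mem_inf.1 hA).1
    have x2 : rt ρ A = 0 := LinearMap.mem_ker.1 (Submodule.mem_inf.1 hA).2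
    obtain ⟨y1, y2, y3⟩ := hG A (mem_KK.1 x1).1 x2
    refine ⟨i • G A, mem_NT.2 ⟨fun j => ?_, ?_⟩, rt_smul σ i (G A)⟩
    · rcases Nat.eq_zero_or_pos (e j) with h0 | h0
      · rw [Pi.smul_apply, y3 j h0, smul_zero]
        exact isHomogeneous_zero _ _ _
      · have := (II_le h hi).mul (y2 j)
        have h1 : 2 + (e j - 1) = e j + 1 := by omega
        rw [h1] at this
        exact this
    · rw [smul_comm, y1]
      exact h.prod i hi A x1

theorem brT_lines (h : BrT e R q β) {l m : MvPolynomial (Fin 3) K}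
    {ρ σ : MvPolynomial (Fin 3) K →ₐ[K] Polynomial K} (hρ : RL ρ l) (hσ : RL σ m)
    (hq : q = l * m) : ∀ A ∈ TS K e, ∃ a, β A = C a * q := by
  obtain ⟨b1', k1', w1, w2, p1, p2, p3, p4, p5, p6, p7, p8, p9, p10⟩ := half h hρ hσ hq
  obtain ⟨b2', k2', v1, v2, q1, q2, q3, q4, q5, q6, q7, q8, q9, q10⟩ :=
    half h hσ hρ (by rw [hq, mul_comm])
  have k0 := rank_KK (e := e) (q := q) (β := β)
  obtain ⟨n1, n2, n3, n4⟩ := sums e
  have hse := h.se
  have hc3 := h.c3
  have t0 := dim_TS (K := K) e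
  refine h.finish ?_
  generalize finrank K ((II e β).map (lm ρ)) = b1 at *
  generalize finrank K ((II e β).map (lm σ)) = b2 at *
  generalize finrank K ((KK e q β).map (rt ρ)) = c1 at *
  generalize finrank K ((KK e q β).map (rt σ)) = c2 at *
  generalize finrank K (II e β ⊓ Submodule.span K {q} :
    Submodule K (MvPolynomial (Fin 3) K)) = s at *
  generalize finrank K (II e β) = i at *
  generalize finrank K (KK e q β) = kk at *
  generalize finrank K (TS K e) = t at *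
  generalize ∑ m, (e m + 4).choose 2 = N4 at *
  generalize ∑ m, (e m + 3).choose 2 = N3 at *
  generalize ∑ m, (e m + 2).choose 2 = N2 at *
  generalize ∑ m, (e m + 1).choose 2 = N1 at *
  generalize ∑ m, (e m).choose 2 = N0 at *
  generalize ∑ m, e m = E at *
  by_contra hne
  push Not at hne
  -- `b = i - s`
  obtain ⟨b, hb⟩ : ∃ b, i = b + s := ⟨i - s, by omega⟩
  have z1 : 5 ≤ c1 + b := by omega
  have z2 : 5 ≤ c2 + b := by omega
  have z3 : 10 ≤ c1 + k1' + b + c := by omega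
  have z4 : 10 ≤ c2 + k2' + b + c := by omega
  have z5 : b1 + b1' = b := by omega
  have z6 : b2 + b2' = b := by omega
  have z7 : 1 ≤ b := by omega
  clear k0 n1 n2 n3 n4 t0 p4 p5 q4 q5 p1 q1 hb hne hse
  by_cases c10 : c1 = 0
  · by_cases c20 : c2 = 0
    · omega
    · omega
  · by_cases c20 : c2 = 0
    · omega
    · have p8' := fun h => p8 h c10
      have p9' := fun h => p9 h c20
      have q8' := fun h => q8 h c20
      have q9' := fun h => q9 h c10
      by_cases u1 : b1 = 0 <;> by_cases u2 : b2 = 0 <;> by_cases u3 : b1' = 0 <;>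
        by_cases u4 : b2' = 0 <;> by_cases u5 : k1' = 0 <;> by_cases u6 : k2' = 0 <;> omega

/-- the product lemma over an algebraically closed field -/
theorem brT [CharZero K] [IsAlgClosed K] (h : BrT e R q β) :
    ∀ A ∈ TS K e, ∃ a, β A = C a * q := by
  rcases conic_class h.hq h.q0 with ⟨ρ, hρ⟩ | ⟨l, m, hl, hm, l0, m0, hq⟩
  · exact brT_RC h hρ
  · obtain ⟨ρ, hρ⟩ := exists_RL hl l0
    obtain ⟨σ, hσ⟩ := exists_RL hm m0
    exact brT_lines h hρ hσ hq

end Pool.Agent.T2C.H84
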