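import Pool.Agent.Lib.MP_c7af3c_ag.T2C.IfaceB
import Pool.Agent.Lib.MP_c7af3c_ag.T2C.H84.Prodl

/-!
# MP_c7af3c_ag, project T2C, row P_QINTB (helper84)
-/

set_option autoImplicit false

namespace Pool.Agent.T2C.H84

open Module MvPolynomial
open Pool.Agent.T2 (S3 mulS)
open Pool.Agent.T2C.H8 (T3 HomC mulC)

theorem ST_eq {K : Type} [Field K] {c : ℕ} (e : Fin c → ℕ) : ST K e = TS K e := by
  ext G
  rw [mem_ST, mem_TS]

theorem mulC_eq {K : Type} [Field K] {c : ℕ} (q : MvPolynomial (Fin 3) K) (e : Fin c → ℕ) :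
    mulC q e = (TS K e).map (sm q) := by
  ext G
  rw [H8.mem_mulC]
  constructor
  · rintro ⟨b, hb, rfl⟩
    exact ⟨b, mem_TS.2 hb, rfl⟩
  · rintro ⟨b, hb, rfl⟩
    exact ⟨b, mem_TS.1 hb, rfl⟩

theorem qintb : QintbStatement := by
  intro _ K _ _ _ n c d y R hT _ hc3 hR q hq q0 hqR β hβ hbr
  obtain ⟨e, rfl⟩ : ∃ e : Fin c → ℕ, d = fun m => e m + 2 :=
    ⟨fun m => d m - 2, funext fun m => (Nat.sub_add_cancel (hT.two m)).symm⟩
  have he : (fun m => (fun m => e m + 2) m - 2) = e := by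
    funext m
    simp
  have he1 : (fun m => (fun m => e m + 2) m - 1) = fun m => e m + 1 := by
    funext m
    simp
  rw [he] at hqR hβ hbr ⊢
  rw [ST_eq] at hβ hbr ⊢
  have hdim : finrank K (ST K fun m => e m + 2) = ∑ m, (e m + 4).choose 2 := by
    rw [ST_eq, dim_TS]
  have hb : BrT e R q β := by
    refine ⟨?_, hc3, ?_, ?_, ?_, hq, q0, ?_, fun A hA => (hβ A hA).1, ?_⟩
    · have h1 := hT.sum
      simp only [Finset.sum_add_distrib, Finset.sum_const, Finset.card_univ, Fintype.card_fin,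
        smul_eq_mul] at h1
      omega
    · rw [← ST_eq]
      exact hR.le
    · rw [hR.dim, hdim]
    · intro z hz z0
      have h1 := hR.line z hz z0
      rw [he1, mulC_eq, hdim] at h1
      exact h1
    · intro A hA
      refine hqR ?_
      rw [mulC_eq]
      exact ⟨A, hA, rfl⟩
    · intro A hA A' hA'
      exact hbr A hA A' hA'
  exact brT hb

end Pool.Agent.T2C.H84
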